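import Mathlib
import Pool.Agent.RPS.Short

set_option autoImplicit false

/-!
# Almost primes of both parities just above powers of two
-/

namespace Pool.Agent.Results.MP_78b39f_nt.AlmostPrimesBothParities

open Finset ArithmeticFunction

/-- `m` is a positive integer with at most `K` prime factors, counted with multiplicity, all of
them larger than `y` -/
def Almost (K : ℕ) (y : ℝ) (m : ℕ) : Prop :=
  0 < m ∧ cardFactors m ≤ K ∧ ∀ p : ℕ, p.Prime → p ∣ m → y < p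

theorem ev (σ : ℝ) (hσ : 0 < σ) (x1 : ℝ) : ∃ n0 : ℕ, ∀ n : ℕ, n0 ≤ n →
    x1 ≤ (2 : ℝ) ^ n ∧ (2 : ℝ) ≤ 2 ^ (σ / 2 * (n : ℝ)) := by
  obtain ⟨a, ha⟩ := exists_nat_ge x1
  obtain ⟨b, hb⟩ := exists_nat_ge (2 / σ)
  refine ⟨a + b, fun n hn => ⟨?_, ?_⟩⟩
  · have h1 : (a : ℝ) ≤ 2 ^ n := by
      have h2 : n < 2 ^ n := Nat.lt_two_pow_self
      have h3 : a ≤ 2 ^ n := by omega
      exact_mod_cast h3
    linarith
  · have h1 : (b : ℝ) ≤ n := by exact_mod_cast (by omega : b ≤ n)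
    have h2 : 1 ≤ σ / 2 * n := by
      have h3 : 2 / σ ≤ n := hb.trans h1
      rw [div_le_iff₀ hσ] at h3
      linarith
    calc (2 : ℝ) = 2 ^ (1 : ℝ) := by rw [Real.rpow_one]
      _ ≤ 2 ^ (σ / 2 * (n : ℝ)) := Real.rpow_le_rpow_of_exponent_le (by norm_num) h2

open Classical in
/-- There are `K` and `σ > 0` such that for all large `n` and all `y ≤ 2 ^ n` the interval
`(2 ^ n, 2 ^ n + y]` contains at least `y / 2 ^ ((1 / 2 - σ) n) - 1` integers with an odd number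
`≤ K` of prime factors, all `> 2 ^ (σ n)`, and at least as many with an even number `≤ K` of prime
factors, all `> 2 ^ (σ n)`. -/
theorem result : ∃ (K : ℕ) (σ : ℝ), 0 < σ ∧ ∃ n0 : ℕ, ∀ n : ℕ, n0 ≤ n → ∀ y : ℕ, y ≤ 2 ^ n →
    (y : ℝ) / 2 ^ ((1 / 2 - σ) * n) - 1 ≤ (((Ioc (2 ^ n) (2 ^ n + y)).filter
      (fun m => Almost K ((2 : ℝ) ^ (σ * n)) m ∧ Odd (cardFactors m))).card : ℝ) ∧
    (y : ℝ) / 2 ^ ((1 / 2 - σ) * n) - 1 ≤ (((Ioc (2 ^ n) (2 ^ n + y)).filter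
      (fun m => Almost K ((2 : ℝ) ^ (σ * n)) m ∧ Even (cardFactors m))).card : ℝ) := by
  obtain ⟨K, σ, hσ0, hσ1, ⟨x1, hx11, hx1⟩, -⟩ := RPS.Short.short
  obtain ⟨n0, hn0⟩ := ev σ hσ0 x1
  refine ⟨K, σ / 2, by positivity, n0, ?_⟩
  intro n hn y hy
  obtain ⟨h1, h2⟩ := hn0 n hn
  obtain ⟨s, hs⟩ : ∃ s : ℝ, s = 2 ^ ((1 / 2 - σ / 2) * (n : ℝ)) := ⟨_, rfl⟩
  have hs0 : 0 < s := by rw [hs]; positivity
  have hy' : (y : ℝ) ≤ 2 ^ n := by exact_mod_cast hy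
  have hone : (1 : ℝ) ≤ 2 ^ n := one_le_pow₀ (by norm_num)
  -- the length
  have hlen : ∀ x : ℝ, ((2 ^ n : ℕ) : ℝ) ≤ x → x ≤ ((2 ^ n + y + 1 : ℕ) : ℝ) →
      x ^ (1 / 2 - σ) ≤ s ∧ (2 : ℝ) ^ (σ / 2 * (n : ℝ)) ≤ x ^ σ ∧ x1 ≤ x := by
    intro x hxl hxu
    push_cast at hxl hxu
    have hx0 : 0 < x := by linarith
    refine ⟨?_, ?_, h1.trans hxl⟩
    · have h3 : x ≤ (2 : ℝ) ^ ((n : ℝ) + 2) := by
        rw [Real.rpow_add (by norm_num), Real.rpow_natCast]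
        norm_num
        linarith
      calc x ^ (1 / 2 - σ) ≤ ((2 : ℝ) ^ ((n : ℝ) + 2)) ^ (1 / 2 - σ) :=
            Real.rpow_le_rpow hx0.le h3 (by linarith)
        _ = 2 ^ (((n : ℝ) + 2) * (1 / 2 - σ)) := by rw [← Real.rpow_mul (by norm_num)]
        _ ≤ 2 ^ ((1 / 2 - σ) * (n : ℝ) + 1) :=
            Real.rpow_le_rpow_of_exponent_le (by norm_num) (by linarith)
        _ = 2 ^ ((1 / 2 - σ) * (n : ℝ)) * 2 := by rw [Real.rpow_add (by norm_num), Real.rpow_one]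
        _ ≤ 2 ^ ((1 / 2 - σ) * (n : ℝ)) * 2 ^ (σ / 2 * (n : ℝ)) :=
            mul_le_mul_of_nonneg_left h2 (by positivity)
        _ = s := by
          rw [hs, ← Real.rpow_add (by norm_num)]
          congr 1
          ring
    · calc (2 : ℝ) ^ (σ / 2 * (n : ℝ)) ≤ 2 ^ ((n : ℝ) * σ) := by
            apply Real.rpow_le_rpow_of_exponent_le (by norm_num)
            have : (0 : ℝ) ≤ n := Nat.cast_nonneg _
            nlinarith
        _ = ((2 : ℝ) ^ n) ^ σ := by rw [Real.rpow_mul (by norm_num), Real.rpow_natCast]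
        _ ≤ x ^ σ := Real.rpow_le_rpow (by positivity) hxl hσ0.le
  have hIoc : Ioc (2 ^ n) (2 ^ n + y) = Ioo (2 ^ n) (2 ^ n + y + 1) := by
    ext m
    simp only [mem_Ioc, mem_Ioo]
    omega
  have key : ∀ pr : ℕ → Prop, (∀ x ≥ x1, ∃ m : ℕ, x < m ∧ (m : ℝ) ≤ x + x ^ (1 / 2 - σ) ∧
      RPS.Short.Almost K (x ^ σ) m ∧ pr (cardFactors m)) →
      (y : ℝ) / s - 1 ≤ (((Ioc (2 ^ n) (2 ^ n + y)).filter
        (fun m => Almost K ((2 : ℝ) ^ (σ / 2 * n)) m ∧ pr (cardFactors m))).card : ℝ) := by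
    intro pr hpr
    rw [hIoc]
    have hN : ((⌊(y : ℝ) / s⌋₊ : ℕ) : ℝ) * s < ((2 ^ n + y + 1 : ℕ) : ℝ) - ((2 ^ n : ℕ) : ℝ) := by
      have h3 : ((⌊(y : ℝ) / s⌋₊ : ℕ) : ℝ) ≤ y / s := Nat.floor_le (by positivity)
      rw [le_div_iff₀ hs0] at h3
      push_cast
      linarith
    have h4 := RPS.Short.count (pr := fun m => Almost K ((2 : ℝ) ^ (σ / 2 * n)) m ∧
      pr (cardFactors m)) hs0 hN (by
        intro x hxl hxu
        obtain ⟨g1, g2, g3⟩ := hlen x hxl hxu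
        obtain ⟨m, a1, a2, ⟨b1, b2, b3⟩, a4⟩ := hpr x g3
        exact ⟨m, a1, by linarith, ⟨b1, b2, fun p hp hpm => lt_of_le_of_lt g2 (b3 p hp hpm)⟩, a4⟩)
    have h5 : (y : ℝ) / s < (⌊(y : ℝ) / s⌋₊ : ℕ) + 1 := Nat.lt_floor_add_one _
    have h6 : ((⌊(y : ℝ) / s⌋₊ : ℕ) : ℝ) ≤ (((Ioo (2 ^ n) (2 ^ n + y + 1)).filter
        (fun m => Almost K ((2 : ℝ) ^ (σ / 2 * n)) m ∧ pr (cardFactors m))).card : ℝ) := by
      exact_mod_cast h4
    linarith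
  rw [← hs]
  constructor
  · convert key Odd (fun x hx => (hx1 x hx).1)
  · convert key Even (fun x hx => (hx1 x hx).2)

end Pool.Agent.Results.MP_78b39f_nt.AlmostPrimesBothParities
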