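import Mathlib

/-!
Large prime factors of the integers in `[2 ^ n, 2 ^ n + p_n]` for almost all `n`.
-/

open Finset Filter Real

namespace Pool.Agent.Results.MP_78b39f_nt.LargePrimeFactors

/-- The gap principle: a large `q` cannot divide `2 ^ n + k` and `2 ^ n' + k'` with `n`, `n'` close. -/
theorem gap {q n n' k k' K : ℕ} (hn : n < n') (hk' : Odd k') (hkK : k ≤ K)
    (hkK' : k' ≤ K) (h1 : q ∣ 2 ^ n + k) (h2 : q ∣ 2 ^ n' + k') : q ≤ K * 2 ^ (n' - n) := by
  obtain ⟨j, rfl⟩ : ∃ j, n' = n + j := ⟨n' - n, by omega⟩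
  have hj : 0 < j := by omega
  have hj2 : n + j - n = j := by omega
  rw [hj2]
  have h3 : (q : ℤ) ∣ (k : ℤ) * 2 ^ j - k' := by
    have e1 : (q : ℤ) ∣ ((2 ^ n + k : ℕ) : ℤ) := Int.natCast_dvd_natCast.mpr h1
    have e2 : (q : ℤ) ∣ ((2 ^ (n + j) + k' : ℕ) : ℤ) := Int.natCast_dvd_natCast.mpr h2
    have e3 := dvd_sub (dvd_mul_of_dvd_left e1 (2 ^ j)) e2
    have e4 : ((2 ^ n + k : ℕ) : ℤ) * 2 ^ j - ((2 ^ (n + j) + k' : ℕ) : ℤ)
        = (k : ℤ) * 2 ^ j - k' := by
      push_cast
      ring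
    rwa [e4] at e3
  have hne : (k : ℤ) * 2 ^ j - k' ≠ 0 := by
    intro h
    have h5 : k * 2 ^ j = k' := by
      have : ((k * 2 ^ j : ℕ) : ℤ) = k' := by push_cast; linarith
      exact_mod_cast this
    have h6 : Even k' := by
      rw [← h5]
      exact (Nat.even_pow.mpr ⟨even_two, by omega⟩).mul_left k
    exact (Nat.not_even_iff_odd.mpr hk') h6
  have h7 : (q : ℤ) ≤ |(k : ℤ) * 2 ^ j - k'| := by
    have := Int.le_of_dvd (abs_pos.mpr hne) ((dvd_abs _ _).mpr h3)
    exact this
  have hp1 : (1 : ℤ) ≤ 2 ^ j := one_le_pow₀ (by norm_num)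
  have hk0 : (0 : ℤ) ≤ k := Int.natCast_nonneg k
  have hk0' : (0 : ℤ) ≤ k' := Int.natCast_nonneg k'
  have hkKz : (k : ℤ) ≤ K := by exact_mod_cast hkK
  have hkKz' : (k' : ℤ) ≤ K := by exact_mod_cast hkK'
  have h8 : |(k : ℤ) * 2 ^ j - k'| ≤ (K : ℤ) * 2 ^ j := by
    rw [abs_le]
    constructor
    · nlinarith
    · nlinarith
  have h9 : (q : ℤ) ≤ ((K * 2 ^ j : ℕ) : ℤ) := by
    push_cast
    linarith
  exact_mod_cast h9

/-- Among `s + 1 ≥ 2` integers of `[a, b]` two have distance at most `(b - a) / s`. -/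
theorem spacing {E : Finset ℕ} {a b s : ℕ} (hs : 0 < s) (hE : E ⊆ Icc a b) (hcard : E.card = s + 1) :
    ∃ n ∈ E, ∃ n' ∈ E, n < n' ∧ s * (n' - n) ≤ b - a := by
  by_contra hcon
  push Not at hcon
  set d := (b - a) / s + 1 with hd
  have hd0 : 0 < d := Nat.succ_pos _
  have hd1 : b - a < s * d := by
    rw [hd]
    exact Nat.lt_mul_div_succ _ hs
  clear_value d
  have hdist : ∀ n ∈ E, ∀ n' ∈ E, n < n' → d ≤ n' - n := by
    intro n hn n' hn' hlt
    have h1 := hcon n hn n' hn' hlt
    rw [hd]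
    have : (b - a) / s < n' - n := by
      rw [Nat.div_lt_iff_lt_mul hs]
      linarith [Nat.mul_comm s (n' - n)]
    exact this
  have hmap : ∀ n ∈ E, (n - a) / d ∈ range s := by
    intro n hn
    have h1 := mem_Icc.mp (hE hn)
    rw [mem_range, Nat.div_lt_iff_lt_mul hd0]
    omega
  have hinj : Set.InjOn (fun n => (n - a) / d) (E : Set ℕ) := by
    intro n hn n' hn' h
    simp only at h
    have h1 := mem_Icc.mp (hE (mem_coe.mp hn))
    have h1' := mem_Icc.mp (hE (mem_coe.mp hn'))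
    rcases lt_trichotomy n n' with hlt | heq | hgt
    · exfalso
      have h2 := hdist n (mem_coe.mp hn) n' (mem_coe.mp hn') hlt
      have h3 : (n - a) / d + 1 ≤ (n' - a) / d := by
        rw [← Nat.add_div_right _ hd0]
        exact Nat.div_le_div_right (by omega)
      omega
    · exact heq
    · exfalso
      have h2 := hdist n' (mem_coe.mp hn') n (mem_coe.mp hn) hgt
      have h3 : (n' - a) / d + 1 ≤ (n - a) / d := by
        rw [← Nat.add_div_right _ hd0]
        exact Nat.div_le_div_right (by omega)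
      omega
  have := card_le_card_of_injOn _ hmap hinj
  rw [card_range, hcard] at this
  omega

/-- Summation of a nonnegative function with the gap property. -/
theorem sum_le_of_gap (N : ℕ) (L B : ℝ) (b : ℕ → ℝ) : ∀ (s : ℕ) (E : Finset ℕ), E.card = s + 1 →
    E ⊆ Icc N (2 * N) →
    (∀ n ∈ E, ∀ n' ∈ E, n < n' → min (b n) (b n') ≤ L + ((n' - n : ℕ) : ℝ) * log 2) →
    (∀ n ∈ E, b n ≤ B) →
    ∑ n ∈ E, b n ≤ s * L + N * log 2 * ((harmonic s : ℚ) : ℝ) + B := by
  intro s
  induction s with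
  | zero =>
    intro E hE _ _ hB
    obtain ⟨n, rfl⟩ := card_eq_one.mp (by simpa using hE)
    simpa using hB n (mem_singleton_self n)
  | succ s ih =>
    intro E hE hsub hgap hB
    have hne : E.Nonempty := card_pos.mp (by omega)
    obtain ⟨n₀, hn₀, hmin⟩ := exists_min_image E b hne
    obtain ⟨n, hn, n', hn', hlt, hsp⟩ := spacing (Nat.succ_pos s) hsub hE
    have h1 : b n₀ ≤ L + ((n' - n : ℕ) : ℝ) * log 2 :=
      (le_min (hmin n hn) (hmin n' hn')).trans (hgap n hn n' hn' hlt)
    have h2 : ((n' - n : ℕ) : ℝ) ≤ N / ((s : ℝ) + 1) := by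
      rw [le_div_iff₀ (by positivity)]
      have h3 : (n' - n) * (s + 1) ≤ N := by
        calc (n' - n) * (s + 1) = (s + 1) * (n' - n) := Nat.mul_comm _ _
          _ ≤ 2 * N - N := hsp
          _ = N := by omega
      exact_mod_cast h3
    have hlog : 0 ≤ log 2 := log_nonneg (by norm_num)
    have h4 : b n₀ ≤ L + N / ((s : ℝ) + 1) * log 2 :=
      h1.trans (by gcongr)
    have h5 := ih (E.erase n₀) (by rw [card_erase_of_mem hn₀, hE]; omega)
      ((erase_subset _ _).trans hsub)
      (fun m hm m' hm' => hgap m (mem_of_mem_erase hm) m' (mem_of_mem_erase hm'))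
      (fun m hm => hB m (mem_of_mem_erase hm))
    rw [← add_sum_erase E b hn₀]
    have h6 : ((harmonic (s + 1) : ℚ) : ℝ) = ((harmonic s : ℚ) : ℝ) + 1 / ((s : ℝ) + 1) := by
      rw [harmonic_succ]
      push_cast
      rw [one_div]
    rw [h6]
    push_cast
    have h7 : (N : ℝ) / ((s : ℝ) + 1) * log 2 = N * log 2 * (1 / ((s : ℝ) + 1)) := by ring
    rw [h7] at h4
    linarith [h4, h5]

/-- The odd integers in `[1, K]`. -/
abbrev odds (K : ℕ) : Finset ℕ := (Icc 1 K).filter Odd

theorem factorization_sum_le (K p : ℕ) (S : Finset ℕ) (hS : S ⊆ Icc 1 K) :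
    ∑ i ∈ S, i.factorization p ≤ (K.factorial).factorization p := by
  have h1 : (K.factorial).factorization p = ∑ i ∈ Icc 1 K, i.factorization p := by
    have e : Icc 1 K = Ico 1 (K + 1) := by
      ext i
      rw [mem_Icc, mem_Ico]
      omega
    rw [e, ← prod_Ico_id_eq_factorial, Nat.factorization_prod_apply]
    intro i hi
    have := mem_Ico.mp hi
    omega
  rw [h1]
  exact sum_le_sum_of_subset hS

/-- Erdős' trick: apart from one term the valuations sum to at most twice that of `K!`. -/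
theorem valuation_sum {p : ℕ} (hp : p.Prime) (n K k₀ : ℕ) (hk₀ : k₀ ∈ odds K)
    (hmax : ∀ k ∈ odds K, (2 ^ n + k).factorization p ≤ (2 ^ n + k₀).factorization p) :
    ∑ k ∈ odds K, (2 ^ n + k).factorization p
      ≤ 2 * (K.factorial).factorization p + (2 ^ n + k₀).factorization p := by
  have hk₀' := mem_Icc.mp (mem_filter.mp hk₀).1
  rw [← add_sum_erase _ _ hk₀, add_comm]
  gcongr
  have key : ∀ k ∈ odds K, ∀ d : ℕ, d ≠ 0 → (k + d = k₀ ∨ k₀ + d = k) →
      (2 ^ n + k).factorization p ≤ d.factorization p := by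
    intro k hk d hd h
    have h1 : p ^ (2 ^ n + k).factorization p ∣ 2 ^ n + k := Nat.ordProj_dvd _ _
    have h2 : p ^ (2 ^ n + k).factorization p ∣ 2 ^ n + k₀ :=
      (pow_dvd_pow p (hmax k hk)).trans (Nat.ordProj_dvd _ _)
    have h3 : p ^ (2 ^ n + k).factorization p ∣ d := by
      rcases h with h | h
      · have e : 2 ^ n + k₀ - (2 ^ n + k) = d := by omega
        rw [← e]
        exact Nat.dvd_sub h2 h1
      · have e : 2 ^ n + k - (2 ^ n + k₀) = d := by omega
        rw [← e]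
        exact Nat.dvd_sub h1 h2
    exact (hp.pow_dvd_iff_le_factorization hd).mp h3
  have hsplit : (odds K).erase k₀ ⊆
      ((odds K).filter (fun k => k < k₀)) ∪ ((odds K).filter (fun k => k₀ < k)) := by
    intro k hk
    rw [mem_erase] at hk
    rcases lt_or_gt_of_ne hk.1 with h | h
    · exact mem_union_left _ (mem_filter.mpr ⟨hk.2, h⟩)
    · exact mem_union_right _ (mem_filter.mpr ⟨hk.2, h⟩)
  have hA : ∑ k ∈ (odds K).filter (fun k => k < k₀), (2 ^ n + k).factorization p
      ≤ (K.factorial).factorization p := by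
    calc ∑ k ∈ (odds K).filter (fun k => k < k₀), (2 ^ n + k).factorization p
        ≤ ∑ k ∈ (odds K).filter (fun k => k < k₀), (k₀ - k).factorization p := by
          refine sum_le_sum fun k hk => ?_
          rw [mem_filter] at hk
          exact key k hk.1 (k₀ - k) (by omega) (Or.inl (by omega))
      _ = ∑ i ∈ ((odds K).filter (fun k => k < k₀)).image (fun k => k₀ - k),
            i.factorization p := by
          rw [sum_image]
          intro a ha b hb hab
          have ha' := (mem_filter.mp (mem_coe.mp ha)).2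
          have hb' := (mem_filter.mp (mem_coe.mp hb)).2
          simp only at hab
          omega
      _ ≤ (K.factorial).factorization p := by
          refine factorization_sum_le K p _ ?_
          intro i hi
          obtain ⟨k, hk, rfl⟩ := mem_image.mp hi
          rw [mem_filter] at hk
          rw [mem_Icc]
          omega
  have hB : ∑ k ∈ (odds K).filter (fun k => k₀ < k), (2 ^ n + k).factorization p
      ≤ (K.factorial).factorization p := by
    calc ∑ k ∈ (odds K).filter (fun k => k₀ < k), (2 ^ n + k).factorization p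
        ≤ ∑ k ∈ (odds K).filter (fun k => k₀ < k), (k - k₀).factorization p := by
          refine sum_le_sum fun k hk => ?_
          rw [mem_filter] at hk
          exact key k hk.1 (k - k₀) (by omega) (Or.inr (by omega))
      _ = ∑ i ∈ ((odds K).filter (fun k => k₀ < k)).image (fun k => k - k₀),
            i.factorization p := by
          rw [sum_image]
          intro a ha b hb hab
          have ha' := (mem_filter.mp (mem_coe.mp ha)).2
          have hb' := (mem_filter.mp (mem_coe.mp hb)).2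
          simp only at hab
          omega
      _ ≤ (K.factorial).factorization p := by
          refine factorization_sum_le K p _ ?_
          intro i hi
          obtain ⟨k, hk, rfl⟩ := mem_image.mp hi
          rw [mem_filter] at hk
          have := mem_Icc.mp (mem_filter.mp hk.1).1
          rw [mem_Icc]
          omega
  calc ∑ k ∈ (odds K).erase k₀, (2 ^ n + k).factorization p
      ≤ ∑ k ∈ ((odds K).filter (fun k => k < k₀)) ∪ ((odds K).filter (fun k => k₀ < k)),
          (2 ^ n + k).factorization p := sum_le_sum_of_subset hsplit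
    _ ≤ ∑ k ∈ (odds K).filter (fun k => k < k₀), (2 ^ n + k).factorization p
        + ∑ k ∈ (odds K).filter (fun k => k₀ < k), (2 ^ n + k).factorization p := by
        rw [← sum_union_inter]
        exact Nat.le_add_right _ _
    _ ≤ 2 * (K.factorial).factorization p := by omega

/-- `S Y m` is the logarithm of the `Y`-smooth part of `m`. -/
noncomputable abbrev S (Y m : ℕ) : ℝ := ∑ p ∈ Nat.primesLE Y, (m.factorization p : ℝ) * log p

theorem log_le_S {Y m d : ℕ} (hm : m ≠ 0) (hd : d ∣ m) (hY : ∀ p : ℕ, p.Prime → p ∣ d → p ≤ Y) :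
    log d ≤ S Y m := by
  have hd0 : d ≠ 0 := fun h => hm (by rw [h] at hd; exact zero_dvd_iff.mp hd)
  rw [log_nat_eq_sum_factorization, Finsupp.sum]
  have hsub : d.factorization.support ⊆ Nat.primesLE Y := by
    intro p hp
    rw [Nat.support_factorization, Nat.mem_primeFactors] at hp
    rw [Nat.mem_primesLE]
    exact ⟨hY p hp.1 hp.2.1, hp.1⟩
  calc ∑ p ∈ d.factorization.support, (d.factorization p : ℝ) * log p
      ≤ ∑ p ∈ d.factorization.support, (m.factorization p : ℝ) * log p := by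
        refine sum_le_sum fun p hp => ?_
        have h1 : d.factorization p ≤ m.factorization p :=
          (Nat.factorization_le_iff_dvd hd0 hm).mpr hd p
        have h2 : 0 ≤ log (p : ℝ) := log_natCast_nonneg p
        gcongr
    _ ≤ ∑ p ∈ Nat.primesLE Y, (m.factorization p : ℝ) * log p := by
        refine sum_le_sum_of_subset_of_nonneg hsub fun p _ _ => ?_
        have h2 : 0 ≤ log (p : ℝ) := log_natCast_nonneg p
        positivity

theorem factorial_S (K Y : ℕ) : S Y K.factorial ≤ K * log K := by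
  have h0 : S Y K.factorial ≤ log K.factorial := by
    rw [log_nat_eq_sum_factorization, Finsupp.sum]
    calc ∑ p ∈ Nat.primesLE Y, ((K.factorial).factorization p : ℝ) * log p
        = ∑ p ∈ (Nat.primesLE Y).filter (fun p => p ∈ (K.factorial).factorization.support),
            ((K.factorial).factorization p : ℝ) * log p := by
          rw [sum_filter_of_ne]
          intro p _ hne
          rw [Finsupp.mem_support_iff]
          intro h
          exact hne (by rw [h]; simp)
      _ ≤ ∑ p ∈ (K.factorial).factorization.support,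
            ((K.factorial).factorization p : ℝ) * log p := by
          refine sum_le_sum_of_subset_of_nonneg ?_ fun p _ _ => ?_
          · intro p hp
            exact (mem_filter.mp hp).2
          · have h2 : 0 ≤ log (p : ℝ) := log_natCast_nonneg p
            positivity
  refine h0.trans ?_
  have h1 : (K.factorial : ℝ) ≤ (K : ℝ) ^ K := by exact_mod_cast Nat.factorial_le_pow K
  calc log K.factorial ≤ log ((K : ℝ) ^ K) :=
        log_le_log (by exact_mod_cast Nat.factorial_pos K) h1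
    _ = K * log K := by rw [log_pow]

/-- The contribution of one prime. -/
theorem one_prime {p : ℕ} (hp : p.Prime) (N K s : ℕ) (E : Finset ℕ) (hK : 1 ≤ K)
    (hK2 : K ≤ 2 ^ (2 * N)) (hcard : E.card = s + 1) (hE : E ⊆ Icc N (2 * N)) :
    ∑ n ∈ E, ∑ k ∈ odds K, ((2 ^ n + k).factorization p : ℝ) * log p
      ≤ 2 * E.card * (((K.factorial).factorization p : ℝ) * log p)
        + (s * log K + N * log 2 * ((harmonic s : ℚ) : ℝ) + (2 * N + 1) * log 2) := by
  have hne : (odds K).Nonempty := ⟨1, by simp [odds]; omega⟩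
  have hex : ∀ n : ℕ, ∃ k₀ ∈ odds K, ∀ k ∈ odds K,
      (2 ^ n + k).factorization p ≤ (2 ^ n + k₀).factorization p := fun n =>
    exists_max_image (odds K) (fun k => (2 ^ n + k).factorization p) hne
  choose κ hκ hκmax using hex
  have hlogp : 0 ≤ log (p : ℝ) := log_natCast_nonneg p
  set b : ℕ → ℝ := fun n => ((2 ^ n + κ n).factorization p : ℝ) * log p with hb
  have hstep : ∀ n ∈ E, ∑ k ∈ odds K, ((2 ^ n + k).factorization p : ℝ) * log p
      ≤ 2 * (((K.factorial).factorization p : ℝ) * log p) + b n := by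
    intro n _
    have h1 := valuation_sum hp n K (κ n) (hκ n) (hκmax n)
    have h2 : (∑ k ∈ odds K, ((2 ^ n + k).factorization p : ℝ))
        ≤ 2 * ((K.factorial).factorization p : ℝ) + ((2 ^ n + κ n).factorization p : ℝ) := by
      exact_mod_cast h1
    rw [← sum_mul]
    calc (∑ k ∈ odds K, ((2 ^ n + k).factorization p : ℝ)) * log p
        ≤ (2 * ((K.factorial).factorization p : ℝ) + ((2 ^ n + κ n).factorization p : ℝ))
          * log p := by gcongr
      _ = _ := by rw [hb]; ring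
  have hsum : ∑ n ∈ E, b n
      ≤ s * log K + N * log 2 * ((harmonic s : ℚ) : ℝ) + (2 * N + 1) * log 2 := by
    refine sum_le_of_gap N (log K) ((2 * N + 1) * log 2) b s E hcard hE ?_ ?_
    · intro n hn n' hn' hlt
      set a := min ((2 ^ n + κ n).factorization p) ((2 ^ n' + κ n').factorization p) with ha
      have h1 : p ^ a ∣ 2 ^ n + κ n :=
        (pow_dvd_pow p (min_le_left _ _)).trans (Nat.ordProj_dvd _ _)
      have h2 : p ^ a ∣ 2 ^ n' + κ n' :=
        (pow_dvd_pow p (min_le_right _ _)).trans (Nat.ordProj_dvd _ _)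
      have m1 := mem_filter.mp (hκ n)
      have m2 := mem_filter.mp (hκ n')
      have h3 := gap hlt m2.2 (mem_Icc.mp m1.1).2 (mem_Icc.mp m2.1).2 h1 h2
      have h4 : ((p : ℝ)) ^ a ≤ K * 2 ^ (n' - n) := by exact_mod_cast h3
      have hp0 : (0 : ℝ) < p := by exact_mod_cast hp.pos
      have hK0 : (0 : ℝ) < K := by exact_mod_cast hK
      have h5 : (a : ℝ) * log p ≤ log K + ((n' - n : ℕ) : ℝ) * log 2 := by
        rw [← log_pow, ← log_pow, ← log_mul hK0.ne' (by positivity)]
        exact log_le_log (by positivity) h4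
      refine le_trans (le_of_eq ?_) h5
      simp only [hb, ha]
      rw [Nat.cast_min, min_mul_of_nonneg _ _ hlogp]
    · intro n hn
      have h1 : p ^ (2 ^ n + κ n).factorization p ≤ 2 ^ n + κ n :=
        Nat.le_of_dvd (by positivity) (Nat.ordProj_dvd _ _)
      have h2 : 2 ^ n + κ n ≤ 2 ^ (2 * N + 1) := by
        have e1 : n ≤ 2 * N := (mem_Icc.mp (hE hn)).2
        have e2 : 2 ^ n ≤ 2 ^ (2 * N) := Nat.pow_le_pow_right (by norm_num) e1
        have e3 : κ n ≤ K := (mem_Icc.mp (mem_filter.mp (hκ n)).1).2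
        rw [pow_succ]
        omega
      have h3 : ((p : ℝ)) ^ (2 ^ n + κ n).factorization p ≤ 2 ^ (2 * N + 1) := by
        exact_mod_cast h1.trans h2
      have hp0 : (0 : ℝ) < p := by exact_mod_cast hp.pos
      simp only [hb]
      rw [← log_pow]
      have h4 : ((2 * N + 1 : ℝ)) * log 2 = log ((2 : ℝ) ^ (2 * N + 1)) := by
        rw [log_pow]
        push_cast
        ring
      rw [h4]
      exact log_le_log (by positivity) h3
  calc ∑ n ∈ E, ∑ k ∈ odds K, ((2 ^ n + k).factorization p : ℝ) * log p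
      ≤ ∑ n ∈ E, (2 * (((K.factorial).factorization p : ℝ) * log p) + b n) := sum_le_sum hstep
    _ = 2 * E.card * (((K.factorial).factorization p : ℝ) * log p) + ∑ n ∈ E, b n := by
        rw [sum_add_distrib, sum_const, nsmul_eq_mul]
        ring
    _ ≤ _ := by linarith [hsum]

/-- The main inequality. -/
theorem main_ineq (N K Y M : ℕ) (E : Finset ℕ) (hK : 1 ≤ K) (hK2 : K ≤ 2 ^ (2 * N))
    (hM : 1 ≤ M) (hcard : E.card = M) (hE : E ⊆ Icc N (2 * N)) :
    ∑ n ∈ E, ∑ k ∈ odds K, S Y (2 ^ n + k)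
      ≤ 2 * M * (K * log K)
        + (Nat.primeCounting Y) * (M * log K + N * (1 + log M) + (2 * N + 1)) := by
  obtain ⟨s, rfl⟩ : ∃ s, M = s + 1 := ⟨M - 1, by omega⟩
  have hswap : ∑ n ∈ E, ∑ k ∈ odds K, S Y (2 ^ n + k)
      = ∑ p ∈ Nat.primesLE Y, ∑ n ∈ E, ∑ k ∈ odds K,
          ((2 ^ n + k).factorization p : ℝ) * log p := by
    calc ∑ n ∈ E, ∑ k ∈ odds K, S Y (2 ^ n + k)
        = ∑ n ∈ E, ∑ p ∈ Nat.primesLE Y, ∑ k ∈ odds K,
            ((2 ^ n + k).factorization p : ℝ) * log p := by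
          refine sum_congr rfl fun n _ => ?_
          rw [sum_comm]
      _ = _ := sum_comm
  rw [hswap]
  have hlogK : 0 ≤ log (K : ℝ) := log_natCast_nonneg K
  have hlog2 : log 2 ≤ 1 := by
    have := log_two_lt_d9
    linarith
  have hlog2' : 0 ≤ log 2 := log_nonneg (by norm_num)
  have hH : ((harmonic s : ℚ) : ℝ) ≤ 1 + log ((s + 1 : ℕ) : ℝ) := by
    have h1 := harmonic_le_one_add_log s
    rcases Nat.eq_zero_or_pos s with rfl | hs
    · simp
    · have h2 : log (s : ℝ) ≤ log ((s + 1 : ℕ) : ℝ) :=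
        log_le_log (by exact_mod_cast hs) (by push_cast; linarith)
      linarith
  have hH0 : 0 ≤ ((harmonic s : ℚ) : ℝ) := by
    have : (0 : ℚ) ≤ harmonic s := by
      unfold harmonic
      positivity
    exact_mod_cast this
  have hper : ∀ p ∈ Nat.primesLE Y, ∑ n ∈ E, ∑ k ∈ odds K,
      ((2 ^ n + k).factorization p : ℝ) * log p
      ≤ 2 * ((s + 1 : ℕ) : ℝ) * (((K.factorial).factorization p : ℝ) * log p)
        + (((s + 1 : ℕ) : ℝ) * log K + N * (1 + log ((s + 1 : ℕ) : ℝ)) + (2 * N + 1)) := by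
    intro p hp
    rw [Nat.mem_primesLE] at hp
    have h1 := one_prime hp.2 N K s E hK hK2 hcard hE
    rw [hcard] at h1
    refine h1.trans ?_
    have hN0 : (0 : ℝ) ≤ N := Nat.cast_nonneg N
    have e1 : (s : ℝ) * log K ≤ ((s + 1 : ℕ) : ℝ) * log K := by
      gcongr
      push_cast
      linarith
    have e2 : (N : ℝ) * log 2 * ((harmonic s : ℚ) : ℝ) ≤ N * (1 + log ((s + 1 : ℕ) : ℝ)) := by
      calc (N : ℝ) * log 2 * ((harmonic s : ℚ) : ℝ)
          ≤ N * 1 * ((harmonic s : ℚ) : ℝ) := by gcongr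
        _ ≤ N * 1 * (1 + log ((s + 1 : ℕ) : ℝ)) := by gcongr
        _ = _ := by ring
    have e3 : (2 * (N : ℝ) + 1) * log 2 ≤ 2 * N + 1 := by
      calc (2 * (N : ℝ) + 1) * log 2 ≤ (2 * N + 1) * 1 := by gcongr
        _ = _ := by ring
    linarith
  refine (sum_le_sum hper).trans ?_
  rw [sum_add_distrib, ← mul_sum, sum_const, nsmul_eq_mul]
  have hc : ((Nat.primesLE Y).card : ℝ) = (Nat.primeCounting Y : ℝ) := by
    simp
  rw [hc]
  have hf := factorial_S K Y
  have h0 : (0 : ℝ) ≤ 2 * ((s + 1 : ℕ) : ℝ) := by positivity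
  have := mul_le_mul_of_nonneg_left hf h0
  linarith

theorem card_odds (K : ℕ) : K ≤ 2 * (odds K).card := by
  have h1 : ((range ((K + 1) / 2)).image (fun i => 2 * i + 1)) ⊆ odds K := by
    intro k hk
    obtain ⟨i, hi, rfl⟩ := mem_image.mp hk
    rw [mem_range] at hi
    refine mem_filter.mpr ⟨mem_Icc.mpr ?_, ⟨i, rfl⟩⟩
    omega
  have h2 := card_le_card h1
  rw [card_image_of_injective _ (fun a b h => by simpa using h), card_range] at h2
  omega

/-- `p_n`, the `n`-th prime. -/
theorem K_le_nth {N K n : ℕ} (hN : 1 ≤ N) (hn : N ≤ n) (hK : Nat.primeCounting K < N) :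
    K ≤ Nat.nth Nat.Prime (n - 1) := by
  have h1 : Nat.count Nat.Prime (K + 1) ≤ N - 1 := by
    have : Nat.count Nat.Prime (K + 1) = Nat.primeCounting K := rfl
    omega
  have h2 : K + 1 ≤ Nat.nth Nat.Prime (N - 1) :=
    (Nat.count_le_iff_le_nth Nat.infinite_setOfPred_prime).mp h1
  have h3 : Nat.nth Nat.Prime (N - 1) ≤ Nat.nth Nat.Prime (n - 1) :=
    Nat.nth_monotone Nat.infinite_setOfPred_prime (by omega)
  omega

theorem nth_le_K {N K n : ℕ} (hn : 1 ≤ n) (hn2 : n ≤ 2 * N) (hK : 2 * N ≤ Nat.primeCounting K) :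
    Nat.nth Nat.Prime (n - 1) ≤ K := by
  have h1 : n - 1 < Nat.count Nat.Prime (K + 1) := by
    have : Nat.count Nat.Prime (K + 1) = Nat.primeCounting K := rfl
    omega
  have h2 : Nat.nth Nat.Prime (n - 1) < K + 1 :=
    (Nat.lt_nth_iff_count_lt Nat.infinite_setOfPred_prime).mp h1
  omega

/-- Conditions which hold for all large `N`. -/
structure Large (N : ℕ) : Prop where
  l45 : 45 ≤ log N
  l16 : 16 * log N ≤ N * log 2
  lsq : (log N) ^ 2 ≤ N
  pi : ∀ x : ℝ, (N : ℝ) ≤ x → (Nat.primeCounting ⌊x⌋₊ : ℝ) ≤ 2 * x / log x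

theorem eventually_large : ∀ᶠ N : ℕ in atTop, Large N := by
  have hcast : Tendsto (fun N : ℕ => (N : ℝ)) atTop atTop := tendsto_natCast_atTop_atTop
  have h1 : ∀ᶠ N : ℕ in atTop, (45 : ℝ) ≤ log N :=
    (tendsto_log_atTop.comp hcast).eventually_ge_atTop 45
  have hlog2 : 0 < log 2 := log_pos (by norm_num)
  have h2 : ∀ᶠ N : ℕ in atTop, 16 * log N ≤ N * log 2 := by
    have := (isLittleO_log_id_atTop.comp_tendsto hcast).bound (show 0 < log 2 / 16 by positivity)
    filter_upwards [this, h1] with N hN h45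
    simp only [Function.comp, id, norm_eq_abs] at hN
    rw [abs_of_nonneg (by linarith), abs_of_nonneg (Nat.cast_nonneg N)] at hN
    linarith
  have h3 : ∀ᶠ N : ℕ in atTop, (log N) ^ 2 ≤ (N : ℝ) := by
    have := ((isLittleO_log_rpow_atTop (show (0 : ℝ) < 1 / 2 by norm_num)).comp_tendsto
      hcast).bound (show (0 : ℝ) < 1 by norm_num)
    filter_upwards [this, h1] with N hN h45
    simp only [Function.comp, norm_eq_abs] at hN
    rw [abs_of_nonneg (by linarith), abs_of_nonneg (by positivity), one_mul, ← sqrt_eq_rpow] at hN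
    calc (log N) ^ 2 ≤ (√(N : ℝ)) ^ 2 := by
          have : 0 ≤ log (N : ℝ) := by linarith
          gcongr
      _ = (N : ℝ) := sq_sqrt (Nat.cast_nonneg N)
  have h4 : ∀ᶠ N : ℕ in atTop, ∀ x : ℝ, (N : ℝ) ≤ x →
      (Nat.primeCounting ⌊x⌋₊ : ℝ) ≤ 2 * x / log x := by
    have hl4 : log 4 ≤ 3 / 2 := by
      have : log 4 = 2 * log 2 := by
        rw [show (4 : ℝ) = 2 ^ 2 by norm_num, log_pow]
        norm_num
      have := log_two_lt_d9
      linarith
    obtain ⟨x₀, hx₀⟩ := eventually_atTop.mp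
      (Chebyshev.eventually_primeCounting_le (show (0 : ℝ) < 1 / 2 by norm_num))
    filter_upwards [hcast.eventually_ge_atTop (max x₀ 2)] with N hN x hx
    have hx1 : x₀ ≤ x := (le_max_left _ _).trans (hN.trans hx)
    have hx2 : 2 ≤ x := (le_max_right _ _).trans (hN.trans hx)
    have hlx : 0 < log x := log_pos (by linarith)
    refine (hx₀ x hx1).trans ?_
    gcongr
    linarith
  filter_upwards [h1, h2, h3, h4] with N a b c d
  exact ⟨a, b, c, d⟩

theorem log_le_of_le_sq {N : ℕ} {x : ℝ} (hx0 : 0 < x) (hx : x ≤ (N : ℝ) ^ 2) :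
    log x ≤ 2 * log N := by
  have := log_le_log hx0 hx
  rwa [log_pow] at this

theorem sq_le_two_pow (N : ℕ) : N ^ 2 ≤ 2 ^ (2 * N) := by
  have h := (Nat.lt_two_pow_self (n := N)).le
  calc N ^ 2 ≤ (2 ^ N) ^ 2 := Nat.pow_le_pow_left h 2
    _ = 2 ^ (2 * N) := by rw [← pow_mul]; ring_nf

open scoped Classical in
theorem part_A {N : ℕ} (hL : Large N) (M : ℕ) (hM : 1 ≤ M) (hMN : M ≤ N) :
    ((Icc N (2 * N)).filter (fun n => ∀ m : ℕ, 2 ^ n ≤ m → m ≤ 2 ^ n + Nat.nth Nat.Prime (n - 1) →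
      ∀ p : ℕ, p.Prime → p ∣ m →
        (p : ℝ) ≤ M * N * (log N) ^ 2 / (500 * (1 + log M)))).card < M := by
  by_contra hcon
  rw [not_lt] at hcon
  obtain ⟨E, hEsub, hEcard⟩ := exists_subset_card_eq hcon
  set l := log (N : ℝ) with hl
  have h45 := hL.l45
  have hN1 : 1 ≤ N := hM.trans hMN
  have hNpos : (0 : ℝ) < N := by exact_mod_cast hN1
  have hN1' : (1 : ℝ) ≤ N := by exact_mod_cast hN1
  have hM1 : (1 : ℝ) ≤ M := by exact_mod_cast hM
  have hMN' : (M : ℝ) ≤ N := by exact_mod_cast hMN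
  have hlM : 0 ≤ log (M : ℝ) := log_natCast_nonneg M
  have hlMM : 1 + log (M : ℝ) ≤ M := by
    have := log_le_sub_one_of_pos (show (0 : ℝ) < M by linarith)
    linarith
  have hlog2 : 0.69 ≤ log 2 := by
    have := log_two_gt_d9
    linarith
  have hlog2' : log 2 ≤ 1 := by
    have := log_two_lt_d9
    linarith
  have hl16 := hL.l16
  have hlsq := hL.lsq
  rw [← hl] at h45 hl16 hlsq
  have hlN : l ≤ N := by nlinarith
  -- the length `K`
  set K := ⌊(N : ℝ) * l / 4⌋₊ with hK
  have hKle : (K : ℝ) ≤ N * l / 4 := Nat.floor_le (by positivity)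
  have hKge : N * l / 5 ≤ (K : ℝ) := by
    have h1 : (N : ℝ) * l / 4 < K + 1 := Nat.lt_floor_add_one _
    nlinarith
  have hKpos : (0 : ℝ) < K := lt_of_lt_of_le (by positivity) hKge
  have hK1 : 1 ≤ K := by
    have : 0 < K := by exact_mod_cast hKpos
    omega
  have hKsq : (K : ℝ) ≤ (N : ℝ) ^ 2 := by nlinarith
  have hKsq' : K ≤ N ^ 2 := by exact_mod_cast hKsq
  have hlogK : log (K : ℝ) ≤ 2 * l := log_le_of_le_sq hKpos hKsq
  have hpiK : Nat.primeCounting K < N := by
    have hx : (N : ℝ) ≤ N * l / 4 := by nlinarith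
    have h1 := hL.pi _ hx
    have h2 : l ≤ log ((N : ℝ) * l / 4) := log_le_log hNpos hx
    have h3 : 2 * ((N : ℝ) * l / 4) / log ((N : ℝ) * l / 4) ≤ 2 * ((N : ℝ) * l / 4) / l := by
      gcongr
    have h4 : 2 * ((N : ℝ) * l / 4) / l = N / 2 := by
      field_simp
      ring
    have h5 : (Nat.primeCounting K : ℝ) < N := by
      rw [← hK] at h1
      linarith
    exact_mod_cast h5
  -- the bound for the primes
  set T : ℝ := M * N * l ^ 2 / (500 * (1 + log M)) with hT
  have hTN : (N : ℝ) ≤ T := by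
    rw [hT, le_div_iff₀ (by positivity)]
    have h1 : (500 : ℝ) ≤ l ^ 2 := by nlinarith
    calc (N : ℝ) * (500 * (1 + log M)) ≤ N * (500 * M) := by gcongr
      _ = M * N * 500 := by ring
      _ ≤ M * N * l ^ 2 := by gcongr
  set Y := ⌊T⌋₊ with hY
  have hT0 : 0 ≤ T := hNpos.le.trans hTN
  have hpiY : (Nat.primeCounting Y : ℝ) ≤ M * N * l / (250 * (1 + log M)) := by
    have h1 := hL.pi T hTN
    have h2 : l ≤ log T := log_le_log hNpos hTN
    have h3 : 2 * T / log T ≤ 2 * T / l := by gcongr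
    have h4 : 2 * T / l = M * N * l / (250 * (1 + log M)) := by
      rw [hT]
      field_simp
      ring
    rw [← hY] at h1
    linarith
  -- lower bound
  have hEIcc : E ⊆ Icc N (2 * N) := hEsub.trans (filter_subset _ _)
  have hmain := main_ineq N K Y M E hK1 (hKsq'.trans (sq_le_two_pow N)) hM hEcard hEIcc
  have hlow : ∀ n ∈ E, ∀ k ∈ odds K, N * log 2 ≤ S Y (2 ^ n + k) := by
    intro n hn k hk
    have hn' := mem_filter.mp (hEsub hn)
    have hnN := (mem_Icc.mp hn'.1).1
    have hk' := mem_Icc.mp (mem_filter.mp hk).1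
    have hkp : k ≤ Nat.nth Nat.Prime (n - 1) := hk'.2.trans (K_le_nth hN1 hnN hpiK)
    have h1 : log ((2 ^ n + k : ℕ) : ℝ) ≤ S Y (2 ^ n + k) := by
      refine log_le_S (by positivity) dvd_rfl ?_
      intro p hp hpd
      exact Nat.le_floor (hn'.2 (2 ^ n + k) (by omega) (by omega) p hp hpd)
    have h2 : (N : ℝ) * log 2 ≤ log ((2 ^ n + k : ℕ) : ℝ) := by
      rw [← log_pow]
      refine log_le_log (by positivity) ?_
      have : 2 ^ N ≤ 2 ^ n + k := (Nat.pow_le_pow_right (by norm_num) hnN).trans (by omega)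
      exact_mod_cast this
    linarith
  have hlow2 : (M : ℝ) * (K / 2) * (N * log 2) ≤ ∑ n ∈ E, ∑ k ∈ odds K, S Y (2 ^ n + k) := by
    have h1 : ∀ n ∈ E, (K / 2 : ℝ) * (N * log 2) ≤ ∑ k ∈ odds K, S Y (2 ^ n + k) := by
      intro n hn
      have h2 := card_nsmul_le_sum (odds K) (fun k => S Y (2 ^ n + k)) (N * log 2) (hlow n hn)
      rw [nsmul_eq_mul] at h2
      refine le_trans ?_ h2
      have h3 : (K : ℝ) ≤ 2 * (odds K).card := by exact_mod_cast card_odds K
      gcongr
      linarith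
    have h4 := card_nsmul_le_sum E _ _ h1
    rw [nsmul_eq_mul, hEcard] at h4
    linarith
  -- the denominator
  have hMl : (M : ℝ) * l ≤ 2 * N * (1 + log M) := by
    rcases le_total (N : ℝ) ((M : ℝ) ^ 2) with h | h
    · have h1 : l ≤ 2 * log M := by
        have := log_le_log hNpos h
        rwa [log_pow] at this
      calc (M : ℝ) * l ≤ N * (2 * log M) := by gcongr
        _ ≤ 2 * N * (1 + log M) := by nlinarith
    · have h1 : (M : ℝ) * l ≤ N := by
        have h2 : ((M : ℝ) * l) ^ 2 ≤ (N : ℝ) ^ 2 := by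
          calc ((M : ℝ) * l) ^ 2 = (M : ℝ) ^ 2 * l ^ 2 := by ring
            _ ≤ (N : ℝ) * N := by gcongr
            _ = (N : ℝ) ^ 2 := by ring
        exact le_of_sq_le_sq h2 hNpos.le
      nlinarith
  have hD : (M : ℝ) * log K + N * (1 + log M) + (2 * N + 1) ≤ 8 * N * (1 + log M) := by
    have h1 : (M : ℝ) * log K ≤ 2 * ((M : ℝ) * l) := by
      calc (M : ℝ) * log K ≤ M * (2 * l) := by gcongr
        _ = _ := by ring
    nlinarith
  have hlogK0 : 0 ≤ log (K : ℝ) := log_natCast_nonneg K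
  have h1 : 2 * (M : ℝ) * (K * log K) ≤ M * K * (N * log 2) / 4 := by
    have : log (K : ℝ) ≤ N * log 2 / 8 := by linarith
    calc 2 * (M : ℝ) * (K * log K) ≤ 2 * M * (K * (N * log 2 / 8)) := by gcongr
      _ = _ := by ring
  have h2 : (Nat.primeCounting Y : ℝ) * (M * log K + N * (1 + log M) + (2 * N + 1))
      ≤ M * N * l / (250 * (1 + log M)) * (8 * N * (1 + log M)) := by
    gcongr
  have h3 : M * N * l / (250 * (1 + log M)) * (8 * N * (1 + log M))
      = 8 / 250 * (M * N * l * N) := by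
    field_simp
  have h4 : (M : ℝ) * K * (N * log 2) / 4 ≤ 8 / 250 * (M * N * l * N) := by
    linarith
  have h5 : (M : ℝ) * (N * l / 5) * (N * 0.69) / 4 ≤ (M : ℝ) * K * (N * log 2) / 4 := by
    gcongr
  have h6 : 0 < (M : ℝ) * N * l * N := by positivity
  nlinarith

open scoped Classical in
theorem part_B {N : ℕ} (hL : Large N) (η lam : ℝ) (hη : 0 < η) (hlam : 0 < lam) :
    ∑ n ∈ Icc N (2 * N), (((Icc (2 ^ n) (2 ^ n + Nat.nth Nat.Prime (n - 1))).filter (fun m : ℕ =>
      Odd m ∧ ∃ d : ℕ, d ∣ m ∧ (2 : ℝ) ^ (lam * N) ≤ d ∧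
        ∀ p : ℕ, p.Prime → p ∣ d → (p : ℝ) ≤ η * N ^ 2 * log N)).card : ℝ)
      ≤ 120 / lam * (η + log N / N) * (N ^ 2 * log N) := by
  set l := log (N : ℝ) with hl
  have h45 := hL.l45
  have hl16 := hL.l16
  have hlsq := hL.lsq
  rw [← hl] at h45 hl16 hlsq
  have hN1 : 1 ≤ N := by
    rcases Nat.eq_zero_or_pos N with rfl | h
    · simp at hl
      linarith
    · exact h
  have hNpos : (0 : ℝ) < N := by exact_mod_cast hN1
  have hN1' : (1 : ℝ) ≤ N := by exact_mod_cast hN1
  have hlog2 : 0.69 ≤ log 2 := by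
    have := log_two_gt_d9
    linarith
  have hlog2' : log 2 ≤ 0.7 := by
    have := log_two_lt_d9
    linarith
  have h16 : 16 * l ≤ N := by nlinarith
  have hNbig : (2025 : ℝ) ≤ N := by nlinarith
  -- the length `K`
  set K := ⌊8 * (N : ℝ) * l⌋₊ with hK
  have hKle : (K : ℝ) ≤ 8 * N * l := Nat.floor_le (by positivity)
  have hKge : 8 * (N : ℝ) * l < K + 1 := Nat.lt_floor_add_one _
  have hKsq : (K : ℝ) ≤ (N : ℝ) ^ 2 := by nlinarith
  have hKpos : (0 : ℝ) < K := by nlinarith
  have hK1 : 1 ≤ K := by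
    have : 0 < K := by exact_mod_cast hKpos
    omega
  have hKsq' : K ≤ N ^ 2 := by exact_mod_cast hKsq
  have hlogK : log (K : ℝ) ≤ 2 * l := log_le_of_le_sq hKpos hKsq
  have hpiK : 2 * N ≤ Nat.primeCounting K := by
    have h1 := Chebyshev.pi_ge K
    have h2 : log ((K : ℝ) + 1) ≤ 3 * l := by
      have e1 : (K : ℝ) + 1 ≤ (N : ℝ) ^ 3 := by
        have : (N : ℝ) ^ 3 = N * (N : ℝ) ^ 2 := by ring
        rw [this]
        nlinarith
      have := log_le_log (by positivity) e1
      rw [log_pow] at this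
      exact_mod_cast this
    have h3 : 4 * (N : ℝ) * l ≤ K * log 2 - log ((K : ℝ) + 1) := by
      have : (8 * (N : ℝ) * l - 1) * 0.69 ≤ K * log 2 := by
        have a1 : 8 * (N : ℝ) * l - 1 ≤ K := by linarith
        calc (8 * (N : ℝ) * l - 1) * 0.69 ≤ K * 0.69 := by gcongr
          _ ≤ K * log 2 := by gcongr
      nlinarith
    have hlogKpos : 0 < log (K : ℝ) := by
      apply log_pos
      nlinarith
    have h4 : (2 * N : ℝ) ≤ (K * log 2 - log ((K : ℝ) + 1)) / log K := by
      rw [le_div_iff₀ hlogKpos]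
      calc (2 * N : ℝ) * log K ≤ 2 * N * (2 * l) := by gcongr
        _ = 4 * N * l := by ring
        _ ≤ _ := h3
    have h5 : (2 * N : ℝ) ≤ Nat.primeCounting K := h4.trans h1
    exact_mod_cast h5
  -- the bound for the primes
  set T : ℝ := η * N ^ 2 * l + N * l with hT
  have hηT : 0 ≤ η * N ^ 2 * l := by positivity
  have hTN : (N : ℝ) ≤ T := by nlinarith
  set Y := ⌊T⌋₊ with hY
  have hpiY : (Nat.primeCounting Y : ℝ) ≤ 2 * (η * N ^ 2 + N) := by
    have h1 := hL.pi T hTN
    have h2 : l ≤ log T := log_le_log hNpos hTN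
    have hT0 : 0 ≤ T := hNpos.le.trans hTN
    have h3 : 2 * T / log T ≤ 2 * T / l := by gcongr
    have h4 : 2 * T / l = 2 * (η * N ^ 2 + N) := by
      rw [hT]
      field_simp
    rw [← hY] at h1
    linarith
  have hmain := main_ineq N K Y (N + 1) (Icc N (2 * N)) hK1 (hKsq'.trans (sq_le_two_pow N))
    (by omega) (by rw [Nat.card_Icc]; omega) subset_rfl
  set A : ℕ → Finset ℕ := fun n =>
    (Icc (2 ^ n) (2 ^ n + Nat.nth Nat.Prime (n - 1))).filter (fun m : ℕ =>
      Odd m ∧ ∃ d : ℕ, d ∣ m ∧ (2 : ℝ) ^ (lam * N) ≤ d ∧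
        ∀ p : ℕ, p.Prime → p ∣ d → (p : ℝ) ≤ η * N ^ 2 * l) with hA
  have hSnn : ∀ m : ℕ, 0 ≤ S Y m := fun m => sum_nonneg fun p _ =>
    mul_nonneg (Nat.cast_nonneg _) (log_natCast_nonneg p)
  have hstep : ∀ n ∈ Icc N (2 * N), ((A n).card : ℝ) * (lam * N * log 2)
      ≤ ∑ k ∈ odds K, S Y (2 ^ n + k) := by
    intro n hn
    have hn' := mem_Icc.mp hn
    have hval : ∀ m ∈ A n, lam * N * log 2 ≤ S Y m := by
      intro m hm
      obtain ⟨hm1, hm2, d, hd1, hd2, hd3⟩ := mem_filter.mp hm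
      have hm0 : m ≠ 0 := by
        rintro rfl
        simp at hm2
      have e1 : log d ≤ S Y m := by
        refine log_le_S hm0 hd1 fun p hp hpd => Nat.le_floor ?_
        have := hd3 p hp hpd
        have h0 : 0 ≤ (N : ℝ) * l := by positivity
        linarith
      have e2 : lam * N * log 2 ≤ log d := by
        have := log_le_log (by positivity) hd2
        rwa [log_rpow (by norm_num)] at this
      linarith
    have himg : (A n).card ≤ ((odds K).filter (fun k => 2 ^ n + k ∈ A n)).card := by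
      refine card_le_card_of_injOn (fun m => m - 2 ^ n) ?_ ?_
      · intro m hm
        have hm' := hm
        obtain ⟨hm1, hm2, -⟩ := mem_filter.mp (mem_coe.mp hm)
        have hm3 := mem_Icc.mp hm1
        have hodd : Odd (m - 2 ^ n) := by
          have heven : Even (2 ^ n) := Nat.even_pow.mpr ⟨even_two, by omega⟩
          exact Nat.Odd.sub_even hm3.1 hm2 heven
        have hpos : m - 2 ^ n ≠ 0 := by
          intro h
          rw [h] at hodd
          simp at hodd
        have hKn := nth_le_K (by omega : 1 ≤ n) hn'.2 hpiK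
        have hmem : m - 2 ^ n ∈ Icc 1 K := mem_Icc.mpr ⟨by omega, by omega⟩
        have e : 2 ^ n + (m - 2 ^ n) = m := by omega
        refine mem_coe.mpr (mem_filter.mpr ⟨mem_filter.mpr ⟨hmem, hodd⟩, ?_⟩)
        show 2 ^ n + (m - 2 ^ n) ∈ A n
        rw [e]
        exact mem_coe.mp hm'
      · intro m hm m' hm' h
        have h1 := (mem_Icc.mp (mem_filter.mp (mem_coe.mp hm)).1).1
        have h2 := (mem_Icc.mp (mem_filter.mp (mem_coe.mp hm')).1).1
        simp only at h
        omega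
    calc ((A n).card : ℝ) * (lam * N * log 2)
        ≤ (((odds K).filter (fun k => 2 ^ n + k ∈ A n)).card : ℝ) * (lam * N * log 2) := by
          gcongr
      _ ≤ ∑ k ∈ (odds K).filter (fun k => 2 ^ n + k ∈ A n), S Y (2 ^ n + k) := by
          have h2 := card_nsmul_le_sum ((odds K).filter (fun k => 2 ^ n + k ∈ A n))
            (fun k => S Y (2 ^ n + k)) (lam * N * log 2) (fun k hk => hval _ (mem_filter.mp hk).2)
          rwa [nsmul_eq_mul] at h2
      _ ≤ ∑ k ∈ odds K, S Y (2 ^ n + k) :=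
          sum_le_sum_of_subset_of_nonneg (filter_subset _ _) fun k _ _ => hSnn _
  have hsum := sum_le_sum hstep
  rw [← sum_mul] at hsum
  have hlogK0 : 0 ≤ log (K : ℝ) := log_natCast_nonneg K
  have hN2 : ((N + 1 : ℕ) : ℝ) ≤ 2 * N := by
    push_cast
    linarith
  have hlogN1 : log ((N + 1 : ℕ) : ℝ) ≤ 2 * l := by
    refine log_le_of_le_sq (by positivity) ?_
    push_cast
    nlinarith
  have h1 : 2 * ((N + 1 : ℕ) : ℝ) * (K * log K) ≤ 64 * (N ^ 2 * l ^ 2) := by
    calc 2 * ((N + 1 : ℕ) : ℝ) * (K * log K) ≤ 2 * (2 * N) * ((8 * N * l) * (2 * l)) := by gcongr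
      _ = _ := by ring
  have hD : ((N + 1 : ℕ) : ℝ) * log K + N * (1 + log ((N + 1 : ℕ) : ℝ)) + (2 * N + 1)
      ≤ 8 * N * l := by
    have a1 : ((N + 1 : ℕ) : ℝ) * log K ≤ (2 * N) * (2 * l) := by gcongr
    have a2 : (N : ℝ) * (1 + log ((N + 1 : ℕ) : ℝ)) ≤ N * (1 + 2 * l) := by gcongr
    nlinarith
  have h2 : (Nat.primeCounting Y : ℝ)
      * (((N + 1 : ℕ) : ℝ) * log K + N * (1 + log ((N + 1 : ℕ) : ℝ)) + (2 * N + 1))
      ≤ 2 * (η * N ^ 2 + N) * (8 * N * l) := by
    gcongr
  have h3 : (∑ n ∈ Icc N (2 * N), ((A n).card : ℝ)) * (lam * N * log 2)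
      ≤ 80 * (N ^ 3 * l) * (η + l / N) := by
    have e : 80 * ((N : ℝ) ^ 3 * l) * (η + l / N) = 80 * (N ^ 3 * l * η) + 80 * (N ^ 2 * l ^ 2) := by
      field_simp
    rw [e]
    have e2 : 16 * ((N : ℝ) ^ 2 * l) ≤ 16 * (N ^ 2 * l ^ 2) := by
      have : l ≤ l ^ 2 := by nlinarith
      gcongr
    have e3 : 0 ≤ (N : ℝ) ^ 3 * l * η := by positivity
    nlinarith
  have h4 : 0 < lam * N * log 2 := by positivity
  have h5 : 120 / lam * (η + l / N) * (N ^ 2 * l) * (lam * N * log 2)
      = 120 * log 2 * ((N ^ 3 * l) * (η + l / N)) := by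
    field_simp
  have h6 : 80 * (N ^ 3 * l) * (η + l / N) ≤ 120 * log 2 * ((N ^ 3 * l) * (η + l / N)) := by
    have : 0 ≤ (N : ℝ) ^ 3 * l * (η + l / N) := by positivity
    nlinarith
  have h7 : (∑ n ∈ Icc N (2 * N), ((A n).card : ℝ)) * (lam * N * log 2)
      ≤ 120 / lam * (η + l / N) * (N ^ 2 * l) * (lam * N * log 2) := by
    rw [h5]
    linarith
  exact le_of_mul_le_mul_right h7 h4

open scoped Classical in
/-- Let `p_n` be the `n`-th prime (`p_1 = 2`). For all large `N`:

(1) for every `1 ≤ M ≤ N` fewer than `M` of the integers `n ∈ [N, 2N]` are such that all prime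
factors of all integers of `[2 ^ n, 2 ^ n + p_n]` are at most `M N (log N)² / (500 (1 + log M))`;

(2) for all real `η, λ > 0`, the number of pairs `(n, m)` with `N ≤ n ≤ 2 N`,
`2 ^ n ≤ m ≤ 2 ^ n + p_n`, `m` odd, such that `m` has a divisor `d ≥ 2 ^ (λ N)` all of whose prime
factors are at most `η N² log N`, is at most `(120 / λ) (η + log N / N) N² log N`. -/
theorem result : ∀ᶠ N : ℕ in atTop,
    (∀ M : ℕ, 1 ≤ M → M ≤ N →
      ((Icc N (2 * N)).filter (fun n => ∀ m : ℕ, 2 ^ n ≤ m → m ≤ 2 ^ n + Nat.nth Nat.Prime (n - 1) →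
        ∀ p : ℕ, p.Prime → p ∣ m →
          (p : ℝ) ≤ M * N * (Real.log N) ^ 2 / (500 * (1 + Real.log M)))).card < M) ∧
    (∀ η lam : ℝ, 0 < η → 0 < lam →
      ∑ n ∈ Icc N (2 * N),
        (((Icc (2 ^ n) (2 ^ n + Nat.nth Nat.Prime (n - 1))).filter (fun m : ℕ =>
          Odd m ∧ ∃ d : ℕ, d ∣ m ∧ (2 : ℝ) ^ (lam * N) ≤ d ∧
            ∀ p : ℕ, p.Prime → p ∣ d → (p : ℝ) ≤ η * N ^ 2 * Real.log N)).card : ℝ)
        ≤ 120 / lam * (η + Real.log N / N) * (N ^ 2 * Real.log N)) := by
  filter_upwards [eventually_large] with N hL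
  exact ⟨fun M hM hMN => part_A hL M hM hMN, fun η lam hη hlam => part_B hL η lam hη hlam⟩

end Pool.Agent.Results.MP_78b39f_nt.LargePrimeFactors
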