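import Mathlib
import Pool.Agent.H6.Asymp

/-!
Many powers of two are followed by long intervals without primes.
-/

open Finset Filter Topology

namespace Pool.Agent.Results.MP_78b39f_nt.PrimeFreeIntervals

/-- If `p - 1 ∣ M` for every odd prime `p ≤ Y`, then `2 ^ (1 + M t) + k` is not a prime for
`k + 2 ≤ Y`. -/
theorem not_prime_of_dvd {M Y t k : ℕ} (hM : 0 < M) (ht : 0 < t)
    (h : ∀ p : ℕ, p.Prime → p ≠ 2 → p ≤ Y → p - 1 ∣ M) (hk : k + 2 ≤ Y) :
    ¬ (2 ^ (1 + M * t) + k).Prime := by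
  intro hp
  have hn : 2 ≤ 1 + M * t := by
    have : 0 < M * t := Nat.mul_pos hM ht
    omega
  have h4 : 4 ≤ 2 ^ (1 + M * t) := by
    calc 4 = 2 ^ 2 := by norm_num
      _ ≤ 2 ^ (1 + M * t) := Nat.pow_le_pow_right (by norm_num) hn
  rcases Nat.even_or_odd k with hev | hodd
  · have h2 : 2 ∣ 2 ^ (1 + M * t) + k :=
      dvd_add (dvd_pow_self 2 (by omega)) hev.two_dvd
    have := (Nat.prime_dvd_prime_iff_eq Nat.prime_two hp).mp h2
    omega
  · set q := Nat.minFac (k + 2) with hq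
    have hqp : q.Prime := Nat.minFac_prime (by omega)
    have hqd : q ∣ k + 2 := Nat.minFac_dvd _
    have hq2 : q ≠ 2 := by
      intro h2
      rw [h2] at hqd
      obtain ⟨j, hj⟩ := hodd
      omega
    have hqle : q ≤ k + 2 := Nat.minFac_le (by omega)
    have hdvd : q - 1 ∣ M * t := (h q hqp hq2 (hqle.trans hk)).mul_right t
    obtain ⟨c, hc⟩ := hdvd
    have : Fact q.Prime := ⟨hqp⟩
    have h2ne : (2 : ZMod q) ≠ 0 := by
      intro h0
      have : ((2 : ℕ) : ZMod q) = 0 := by exact_mod_cast h0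
      rw [ZMod.natCast_eq_zero_iff] at this
      exact hq2 ((Nat.prime_dvd_prime_iff_eq hqp Nat.prime_two).mp this)
    have hz : ((2 ^ (1 + M * t) + k : ℕ) : ZMod q) = 0 := by
      push_cast
      rw [hc, pow_add, pow_mul, ZMod.pow_card_sub_one_eq_one h2ne, one_pow]
      have : ((k + 2 : ℕ) : ZMod q) = 0 := (ZMod.natCast_eq_zero_iff _ _).mpr hqd
      push_cast at this
      rw [← this]
      ring
    rw [ZMod.natCast_eq_zero_iff] at hz
    have := (Nat.prime_dvd_prime_iff_eq hqp hp).mp hz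
    omega

set_option maxHeartbeats 2000000 in
/-- For every `ε > 0` there is `c > 0` such that for all large `N` at least `N ^ (1 - ε)` of the
integers `n ∈ [1, N]` have the property that there is no prime `p` with
`2 ^ n ≤ p ≤ 2 ^ n + c log N loglog N / logloglog N`. -/
theorem result : ∀ ε : ℝ, 0 < ε → ∃ c : ℝ, 0 < c ∧ ∃ N₀ : ℕ, ∀ N : ℕ, N₀ ≤ N →
    (N : ℝ) ^ (1 - ε) ≤
      (Set.ncard {n : ℕ | 1 ≤ n ∧ n ≤ N ∧ ∀ p : ℕ, p.Prime → 2 ^ n ≤ p →
        ¬ ((p : ℝ) ≤ 2 ^ n +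
          c * (Real.log N * Real.log (Real.log N) / Real.log (Real.log (Real.log N))))} : ℝ) := by
  intro ε₀ hε₀
  set ε : ℝ := min ε₀ 1 with hεdef
  have hε : 0 < ε := lt_min hε₀ one_pos
  have hε1 : ε ≤ 1 := min_le_right _ _
  obtain ⟨C₀, hC₀, Y₀, hY₀⟩ := H6.log_MM_asymp
  set c : ℝ := min 1 (ε / (32 * C₀)) with hc
  have hcpos : 0 < c := lt_min one_pos (by positivity)
  have hc1 : c ≤ 1 := min_le_left _ _
  have hcε : c ≤ ε / (32 * C₀) := min_le_right _ _
  refine ⟨c, hcpos, ?_⟩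
  -- asymptotic facts in terms of `ℓ = log N`
  have t1 : Tendsto (fun x : ℝ => Real.log x) atTop atTop := Real.tendsto_log_atTop
  have t2 : Tendsto (fun x : ℝ => Real.log (Real.log x)) atTop atTop := t1.comp t1
  have f0 : ∀ᶠ x : ℝ in atTop, 2 ≤ Real.log (Real.log x) := t2.eventually_ge_atTop 2
  -- c x ≥ sqrt x + 10 + Y₀
  have f1 : ∀ᶠ x : ℝ in atTop, x ^ (1 / 2 : ℝ) + 10 + Y₀ ≤ c * x := by
    have h1 : ∀ᶠ x : ℝ in atTop, 2 / c ≤ x ^ (1 / 2 : ℝ) :=
      (tendsto_rpow_atTop (show (0 : ℝ) < 1 / 2 by norm_num)).eventually_ge_atTop _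
    have h2 : ∀ᶠ x : ℝ in atTop, 10 + (Y₀ : ℝ) ≤ x ^ (1 / 2 : ℝ) :=
      (tendsto_rpow_atTop (show (0 : ℝ) < 1 / 2 by norm_num)).eventually_ge_atTop _
    filter_upwards [h1, h2, eventually_gt_atTop (0 : ℝ)] with x h1 h2 h3
    have h4 : x ^ (1 / 2 : ℝ) * x ^ (1 / 2 : ℝ) = x := by
      rw [← Real.rpow_add h3]; norm_num
    have h5 : 2 ≤ c * x ^ (1 / 2 : ℝ) := by
      rw [div_le_iff₀ hcpos] at h1
      linarith
    have h6 : 0 ≤ x ^ (1 / 2 : ℝ) := by positivity
    calc x ^ (1 / 2 : ℝ) + 10 + Y₀ ≤ 2 * x ^ (1 / 2 : ℝ) := by linarith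
      _ ≤ (c * x ^ (1 / 2 : ℝ)) * x ^ (1 / 2 : ℝ) := by gcongr
      _ = c * x := by rw [mul_assoc, h4]
  -- log x ≤ x / 4
  have f2 : ∀ᶠ x : ℝ in atTop, Real.log x ≤ (1 / 4) * x := by
    have := Real.isLittleO_log_id_atTop.bound (show (0 : ℝ) < 1 / 4 by norm_num)
    filter_upwards [this, eventually_ge_atTop (1 : ℝ)] with x hx hx1
    rw [Real.norm_of_nonneg (Real.log_nonneg hx1)] at hx
    simpa [abs_of_nonneg (show (0 : ℝ) ≤ x by linarith)] using hx
  have f3 : ∀ᶠ x : ℝ in atTop, 10 ≤ (ε / 4) * x := by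
    filter_upwards [eventually_ge_atTop (40 / ε)] with x hx
    rw [div_le_iff₀ hε] at hx
    linarith
  have f4 : ∀ᶠ x : ℝ in atTop, (4 : ℝ) ≤ x := eventually_ge_atTop 4
  have fall := f0.and (f1.and (f2.and (f3.and f4)))
  have fN := (t1.eventually fall)
  have fN' := tendsto_natCast_atTop_atTop (R := ℝ) |>.eventually fN
  rw [eventually_atTop] at fN'
  obtain ⟨N₀, hN₀⟩ := fN'
  refine ⟨max N₀ 3, ?_⟩
  intro N hN
  obtain ⟨g0, g1, g2, g3, g4⟩ := hN₀ N ((le_max_left _ _).trans hN)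
  have hN3 : 3 ≤ N := (le_max_right _ _).trans hN
  set ℓ : ℝ := Real.log N with hℓ
  set F : ℝ := ℓ * Real.log ℓ / Real.log (Real.log ℓ) with hF
  set Y : ℕ := ⌊c * F⌋₊ + 2 with hY
  set LL := Real.log ℓ with hLL
  set LLL := Real.log LL with hLLL
  have hNpos : (0 : ℝ) < N := by exact_mod_cast (by omega : 0 < N)
  have hℓpos : 0 < ℓ := by linarith
  have hLLLpos : 0 < LLL := by linarith
  have hLLpos : 0 < LL := by
    by_contra hcon
    push Not at hcon
    have h1 : LL < 0 ∨ LL = 0 := lt_or_eq_of_le hcon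
    -- log ℓ > 0 since ℓ ≥ 4
    have : 0 < Real.log ℓ := Real.log_pos (by linarith)
    linarith
  have hLLLle : LLL ≤ LL := by
    have := Real.log_le_sub_one_of_pos hLLpos
    linarith
  have hFge : ℓ ≤ F := by
    rw [hF, le_div_iff₀ hLLLpos]
    exact mul_le_mul_of_nonneg_left hLLLle hℓpos.le
  have hFle : F ≤ ℓ * LL := by
    rw [hF]
    apply div_le_self (by positivity)
    linarith
  have hcF : c * ℓ ≤ c * F := mul_le_mul_of_nonneg_left hFge hcpos.le
  have hcFpos : 0 ≤ c * F := by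
    have : 0 ≤ c * ℓ := by positivity
    linarith
  -- bounds on Y
  have hYlo : c * F ≤ Y := by
    rw [hY]; push_cast
    have := Nat.lt_floor_add_one (c * F)
    linarith
  have hYhi : (Y : ℝ) ≤ c * F + 2 := by
    rw [hY]; push_cast
    have := Nat.floor_le hcFpos
    linarith
  have hsq : 0 ≤ ℓ ^ (1 / 2 : ℝ) := by positivity
  have hYY₀ : Y₀ ≤ Y := by
    have h1 : (Y₀ : ℝ) ≤ Y := by linarith
    exact_mod_cast h1
  have hYsqrt : ℓ ^ (1 / 2 : ℝ) ≤ Y := by
    have h0 : (0 : ℝ) ≤ Y₀ := Nat.cast_nonneg _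
    linarith
  have hY4 : 4 ≤ Y := by
    have h0 : (0 : ℝ) ≤ Y₀ := Nat.cast_nonneg _
    have h1 : ((4 : ℕ) : ℝ) ≤ Y := by push_cast; linarith
    exact_mod_cast h1
  have hYle2 : (Y : ℝ) ≤ 2 * (c * F) := by
    have h0 : (0 : ℝ) ≤ Y₀ := Nat.cast_nonneg _
    linarith
  have hYle : (Y : ℝ) ≤ ℓ ^ 2 := by
    have h1 : c * F ≤ F := by
      have : 0 ≤ F := by linarith
      nlinarith
    calc (Y : ℝ) ≤ 2 * (c * F) := hYle2
      _ ≤ 2 * (ℓ * LL) := by linarith
      _ ≤ 2 * (ℓ * ((1 / 4) * ℓ)) := by gcongr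
      _ ≤ ℓ ^ 2 := by nlinarith
  have hYpos : (0 : ℝ) < Y := by exact_mod_cast (by omega : 0 < Y)
  have hlogYlo : LL / 2 ≤ Real.log Y := by
    have := Real.log_le_log (by positivity) hYsqrt
    rw [Real.log_rpow hℓpos] at this
    linarith
  have hlogYhi : Real.log Y ≤ 2 * LL := by
    have := Real.log_le_log hYpos hYle
    rw [Real.log_pow] at this
    push_cast at this
    linarith
  have hlogYpos : 0 < Real.log Y := by linarith
  have hloglogY : Real.log (Real.log Y) ≤ 2 * LLL := by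
    have h1 := Real.log_le_log hlogYpos hlogYhi
    rw [Real.log_mul (by norm_num) hLLpos.ne'] at h1
    have := Real.log_two_lt_d9
    linarith
  -- the modulus
  set M := H6.MM (⌊Real.log Y⌋₊ + 1) Y with hMdef
  have hMpos : 0 < M := H6.MM_pos _ _
  have hMdvd : ∀ p : ℕ, p.Prime → p ≠ 2 → p ≤ Y → p - 1 ∣ M := by
    intro p hp hp2 hpY
    exact H6.dvd_MM _ _ p (by omega) hY4 hp hp2 hpY
  have hlogM : Real.log M ≤ (ε / 4) * ℓ := by
    refine (hY₀ Y hYY₀).trans ?_
    have h1 : Real.log (Real.log Y) / Real.log Y ≤ (2 * LLL) / (LL / 2) := by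
      apply div_le_div₀ (by positivity) hloglogY (by positivity) hlogYlo
    calc C₀ * (Y * (Real.log (Real.log Y) / Real.log Y))
        ≤ C₀ * (Y * ((2 * LLL) / (LL / 2))) := by gcongr
      _ ≤ C₀ * ((2 * (c * F)) * ((2 * LLL) / (LL / 2))) := by gcongr
      _ = 8 * C₀ * c * ℓ := by
          rw [hF]
          field_simp
          ring
      _ ≤ 8 * C₀ * (ε / (32 * C₀)) * ℓ := by gcongr
      _ = (ε / 4) * ℓ := by
          field_simp
          ring
  have hMle : (M : ℝ) ≤ (N : ℝ) ^ (ε / 4) := by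
    have hMR : (0 : ℝ) < M := by exact_mod_cast hMpos
    rw [← Real.exp_log hMR, Real.rpow_def_of_pos hNpos]
    apply Real.exp_le_exp.mpr
    linarith
  -- the set
  set S : Set ℕ := {n : ℕ | 1 ≤ n ∧ n ≤ N ∧ ∀ p : ℕ, p.Prime → 2 ^ n ≤ p →
        ¬ ((p : ℝ) ≤ 2 ^ n + c * F)} with hS
  have hSfin : S.Finite := (Set.finite_Icc 1 N).subset (fun n hn => ⟨hn.1, hn.2.1⟩)
  have himg : (((Finset.Icc 1 ((N - 1) / M)).image (fun t => 1 + M * t) : Finset ℕ) : Set ℕ) ⊆ S := by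
    intro n hn
    rw [Finset.mem_coe, Finset.mem_image] at hn
    obtain ⟨t, ht, rfl⟩ := hn
    rw [Finset.mem_Icc] at ht
    refine ⟨by omega, ?_, ?_⟩
    · have h1 : M * t ≤ N - 1 := by
        calc M * t ≤ M * ((N - 1) / M) := Nat.mul_le_mul_left M ht.2
          _ ≤ N - 1 := Nat.mul_div_le _ _
      omega
    · intro p hp hple hpge
      obtain ⟨k, hk⟩ := Nat.exists_eq_add_of_le hple
      have hkR : (k : ℝ) ≤ c * F := by
        rw [hk] at hpge
        push_cast at hpge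
        linarith
      have hkY : k + 2 ≤ Y := by
        rw [hY]
        have := Nat.le_floor hkR
        omega
      rw [hk] at hp
      exact not_prime_of_dvd hMpos (by omega) hMdvd hkY hp
  have hcard : (N - 1) / M ≤ S.ncard := by
    have h1 := Set.ncard_le_ncard himg hSfin
    rw [Set.ncard_coe_finset, Finset.card_image_of_injective, Nat.card_Icc, Nat.add_sub_cancel] at h1
    · exact h1
    · intro a b hab
      dsimp only at hab
      have : M * a = M * b := by omega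
      exact Nat.eq_of_mul_eq_mul_left hMpos this
  have hN1 : (1 : ℝ) ≤ N := by exact_mod_cast (by omega : 1 ≤ N)
  calc (N : ℝ) ^ (1 - ε₀) ≤ (N : ℝ) ^ (1 - ε) := by
        apply Real.rpow_le_rpow_of_exponent_le hN1
        have := min_le_left ε₀ 1
        linarith
    _ ≤ (N : ℝ) ^ (1 - ε / 4) - 2 := by
        have h1 : (10 : ℝ) ≤ Real.exp ((ε / 4) * ℓ) := by
          have := Real.add_one_le_exp ((ε / 4) * ℓ)
          linarith
        have h2 : (N : ℝ) ^ (ε / 4) = Real.exp ((ε / 4) * ℓ) := by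
          rw [Real.rpow_def_of_pos hNpos, ← hℓ, mul_comm]
        have h3 : (N : ℝ) ^ (1 - ε / 4) = (N : ℝ) ^ (1 - ε / 2) * (N : ℝ) ^ (ε / 4) := by
          rw [← Real.rpow_add hNpos]; ring_nf
        have h4 : (1 : ℝ) ≤ (N : ℝ) ^ (1 - ε / 2) := by
          apply Real.one_le_rpow hN1
          linarith
        have h5 : (N : ℝ) ^ (1 - ε) ≤ (N : ℝ) ^ (1 - ε / 2) := by
          apply Real.rpow_le_rpow_of_exponent_le hN1
          linarith
        rw [h3, h2]
        nlinarith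
    _ ≤ (N : ℝ) / M - 2 := by
        have hMR : (0 : ℝ) < M := by exact_mod_cast hMpos
        have h1 : (N : ℝ) ^ (1 - ε / 4) ≤ (N : ℝ) / M := by
          rw [le_div_iff₀ hMR]
          calc (N : ℝ) ^ (1 - ε / 4) * M ≤ (N : ℝ) ^ (1 - ε / 4) * (N : ℝ) ^ (ε / 4) := by gcongr
            _ = N := by
                rw [← Real.rpow_add hNpos]; simp
        linarith
    _ ≤ (((N - 1) / M : ℕ) : ℝ) := by
        have hMR : (0 : ℝ) < M := by exact_mod_cast hMpos
        have hM1 : (1 : ℝ) ≤ M := by exact_mod_cast hMpos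
        have h1 : N - 1 < M * ((N - 1) / M + 1) := Nat.lt_mul_div_succ _ hMpos
        have h2 : (N : ℝ) - 1 < M * ((((N - 1) / M : ℕ) : ℝ) + 1) := by
          have h3 : ((N - 1 : ℕ) : ℝ) < ((M * ((N - 1) / M + 1) : ℕ) : ℝ) := by exact_mod_cast h1
          rw [Nat.cast_sub (by omega)] at h3
          push_cast at h3
          push_cast
          exact h3
        have h4 : (N : ℝ) / M ≤ (((N - 1) / M : ℕ) : ℝ) + 2 := by
          rw [div_le_iff₀ hMR]
          nlinarith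
        linarith
    _ ≤ (S.ncard : ℝ) := by exact_mod_cast hcard

end Pool.Agent.Results.MP_78b39f_nt.PrimeFreeIntervals
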