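import Mathlib
import Pool.Agent.H87.Rad.Base
import Pool.Agent.H87.Rad.Total

/-!
The product of the distinct primes up to `n ^ (5/2 - ε)` dividing an integer of `[2 ^ n, 2 ^ n + p_n]`;
version for `M` consecutive exponents `n`.
-/

open Finset Filter Real Pool.Agent.H87.Rad

namespace Pool.Agent.Results.MP_78b39f_nt.SquarefreeSmoothPart

theorem log_le_RS {Y m d : ℕ} (hm : m ≠ 0) (hd : d ∣ m) (hsq : Squarefree d)
    (hY : ∀ p : ℕ, p.Prime → p ∣ d → p ≤ Y) : log d ≤ RS Y m := by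
  have hd0 : d ≠ 0 := fun h => hm (by rw [h] at hd; exact zero_dvd_iff.mp hd)
  have h1 : (d : ℝ) = ∏ p ∈ d.primeFactors, (p : ℝ) := by
    have := Nat.prod_primeFactors_of_squarefree hsq
    calc (d : ℝ) = ((∏ p ∈ d.primeFactors, p : ℕ) : ℝ) := by rw [this]
      _ = _ := by push_cast; rfl
  rw [h1, log_prod (fun _ hp => by exact_mod_cast (Nat.prime_of_mem_primeFactors hp).ne_zero)]
  refine sum_le_sum_of_subset_of_nonneg ?_ fun p _ _ => log_natCast_nonneg p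
  intro p hp
  have h2 := Nat.mem_primeFactors.mp hp
  exact mem_filter.mpr ⟨Nat.mem_primesLE.mpr ⟨hY p h2.1 h2.2.1, h2.1⟩, h2.2.1.trans hd⟩

theorem RS_le_log {Y m : ℕ} (hm : m ≠ 0) : RS Y m ≤ log m :=
  sum_log_primes_le hm _ (fun _ hp => (Nat.mem_primesLE.mp (mem_filter.mp hp).1).2)
    (fun _ hp => (mem_filter.mp hp).2)

theorem nth_le_K {N K n : ℕ} (hn : 1 ≤ n) (hn2 : n ≤ 2 * N) (hK : 2 * N ≤ Nat.primeCounting K) :
    Nat.nth Nat.Prime (n - 1) ≤ K := by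
  have h1 : n - 1 < Nat.count Nat.Prime (K + 1) := by
    have : Nat.count Nat.Prime (K + 1) = Nat.primeCounting K := rfl
    omega
  have h2 : Nat.nth Nat.Prime (n - 1) < K + 1 :=
    (Nat.lt_nth_iff_count_lt Nat.infinite_setOfPred_prime).mp h1
  omega

/-- Conditions which hold for all large `N`. -/
structure Large (N : ℕ) : Prop where
  l45 : 2000 ≤ log N
  l16 : 16 * log N ≤ N * log 2
  l3 : 2000 * (log N) ^ 3 ≤ ((N : ℝ) ^ (1 / 10 : ℝ)) ^ 3

theorem eventually_large : ∀ᶠ N : ℕ in atTop, Large N := by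
  have hcast : Tendsto (fun N : ℕ => (N : ℝ)) atTop atTop := tendsto_natCast_atTop_atTop
  have h1 : ∀ᶠ N : ℕ in atTop, (2000 : ℝ) ≤ log N :=
    (tendsto_log_atTop.comp hcast).eventually_ge_atTop 2000
  have hlog2 : 0 < log 2 := log_pos (by norm_num)
  have h2 : ∀ᶠ N : ℕ in atTop, 16 * log N ≤ N * log 2 := by
    have := (isLittleO_log_id_atTop.comp_tendsto hcast).bound (show 0 < log 2 / 16 by positivity)
    filter_upwards [this, h1] with N hN h45
    simp only [Function.comp, id, norm_eq_abs] at hN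
    rw [abs_of_nonneg (by linarith), abs_of_nonneg (Nat.cast_nonneg N)] at hN
    linarith
  have h3 : ∀ᶠ N : ℕ in atTop, 2000 * (log N) ^ 3 ≤ ((N : ℝ) ^ (1 / 10 : ℝ)) ^ 3 := by
    have := ((isLittleO_log_rpow_atTop (show (0 : ℝ) < 1 / 10 by norm_num)).comp_tendsto
      hcast).bound (show (0 : ℝ) < 1 / 20 by norm_num)
    filter_upwards [this, h1] with N hN h45
    simp only [Function.comp, norm_eq_abs] at hN
    rw [abs_of_nonneg (by linarith), abs_of_nonneg (by positivity)] at hN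
    have h0 : 0 ≤ log (N : ℝ) := by linarith
    have h4 : (log (N : ℝ)) ^ 3 ≤ (1 / 20 * (N : ℝ) ^ (1 / 10 : ℝ)) ^ 3 := by gcongr
    have h5 : 0 ≤ ((N : ℝ) ^ (1 / 10 : ℝ)) ^ 3 := by positivity
    have h6 : (1 / 20 * (N : ℝ) ^ (1 / 10 : ℝ)) ^ 3 = 1 / 8000 * ((N : ℝ) ^ (1 / 10 : ℝ)) ^ 3 := by
      ring
    rw [h6] at h4
    linarith
  filter_upwards [h1, h2, h3] with N a b c
  exact ⟨a, b, c⟩

theorem log_le_of_le_sq {N : ℕ} {x : ℝ} (hx0 : 0 < x) (hx : x ≤ (N : ℝ) ^ 2) :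
    log x ≤ 2 * log N := by
  have := log_le_log hx0 hx
  rwa [log_pow] at this

/-- The case `η ≤ 1` of the bound for the sum of the logarithms. -/
theorem sum_bound {N M : ℕ} (hL : Large N) (hM : (log N) ^ 10 ≤ M) (hMN : M ≤ N)
    {η : ℝ} (hη : 0 < η) (hη1 : η ≤ 1) {K Y : ℕ}
    (hK2 : 2 ≤ K) (hKle : (K : ℝ) ≤ 8 * N * log N) (hlogK : log (K : ℝ) ≤ 2 * log N)
    {b : ℝ} (hb0 : 0 < b) (hbM : (M : ℝ) = b ^ 10)
    (hY : (Y : ℝ) ≤ η ^ 3 * ((N : ℝ) ^ 2 * b ^ 5 * √(log N))) :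
    ∑ n ∈ Ico N (N + M), ∑ k ∈ odds K, RS Y (2 ^ n + k)
      ≤ 94 * (η ^ 2 * (b ^ 10 * (N : ℝ) ^ 2 * log N)) + 15 * (b ^ 8 * (N : ℝ) ^ 2 * log N) := by
  set l := log (N : ℝ) with hl
  set c := (N : ℝ) ^ (1 / 10 : ℝ) with hc
  have h2000 := hL.l45
  have hl16 := hL.l16
  have hl3 := hL.l3
  rw [← hl] at h2000 hl16 hl3
  rw [← hc] at hl3
  have hN1 : 1 ≤ N := by
    rcases Nat.eq_zero_or_pos N with rfl | h
    · simp at hl
      linarith
    · exact h
  have hNpos : (0 : ℝ) < N := by exact_mod_cast hN1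
  have hN1' : (1 : ℝ) ≤ N := by exact_mod_cast hN1
  have hc1 : 1 ≤ c := by
    rw [hc]
    exact one_le_rpow hN1' (by norm_num)
  have hcN : (N : ℝ) = c ^ 10 := by
    rw [hc, ← rpow_natCast, ← rpow_mul hNpos.le]
    norm_num
  have hlpos : 0 < l := by linarith
  have hMN' : (M : ℝ) ≤ N := by exact_mod_cast hMN
  have hlb : l ≤ b := by
    have h1 : l ^ 10 ≤ b ^ 10 := by rw [← hbM]; exact hM
    exact le_of_pow_le_pow_left₀ (by norm_num) hb0.le h1
  have hbc : b ≤ c := by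
    have h1 : b ^ 10 ≤ c ^ 10 := by rw [← hbM, ← hcN]; exact hMN'
    exact le_of_pow_le_pow_left₀ (by norm_num) (by linarith) h1
  have hb1 : 1 ≤ b := by linarith
  have hlog2 : 0.69 ≤ log 2 := by
    have := log_two_gt_d9
    linarith
  have hlog2' : log 2 ≤ 0.7 := by
    have := log_two_lt_d9
    linarith
  have hlog4 : log 4 ≤ 1.4 := by
    have : log 4 = 2 * log 2 := by
      rw [show (4 : ℝ) = 2 ^ 2 by norm_num, log_pow]
      norm_num
    linarith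
  have hb3 : 2000 * l ^ 2 ≤ b ^ 3 := by
    calc 2000 * l ^ 2 ≤ l * l ^ 2 := by gcongr
      _ = l ^ 3 := by ring
      _ ≤ b ^ 3 := by gcongr
  set s := √l with hs
  have hs2 : s ^ 2 = l := sq_sqrt hlpos.le
  have hs1 : 1 ≤ s := by
    rw [hs]
    exact one_le_sqrt.mpr (by linarith)
  have hs0 : 0 < s := by linarith
  have hsl : s ≤ l := by
    rw [← hs2, sq]
    exact le_mul_of_one_le_left hs0.le hs1
  set t := η * b ^ 5 / s with ht
  have ht0 : 0 < t := by positivity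
  have hta : t ≤ b ^ 5 := by
    rw [ht, div_le_iff₀ hs0]
    have h0 : 0 ≤ b ^ 5 := by positivity
    calc η * b ^ 5 ≤ 1 * b ^ 5 := by gcongr
      _ = b ^ 5 * 1 := by ring
      _ ≤ b ^ 5 * s := by gcongr
  set D := ⌈t⌉₊ with hD
  have hDt : t ≤ D := Nat.le_ceil t
  have hDt1 : (D : ℝ) ≤ t + 1 := (Nat.ceil_lt_add_one ht0.le).le
  have hDpos : 0 < D := Nat.ceil_pos.mpr ht0
  have hDpos' : (0 : ℝ) < D := by exact_mod_cast hDpos
  set L := ⌈b ^ 9⌉₊ with hLdef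
  have hb9 : 1 ≤ b ^ 9 := one_le_pow₀ hb1
  have hL1 : b ^ 9 ≤ L := Nat.le_ceil _
  have hL2 : (L : ℝ) ≤ 2 * b ^ 9 := by
    have := (Nat.ceil_lt_add_one (show (0 : ℝ) ≤ b ^ 9 by positivity)).le
    rw [← hLdef] at this
    linarith
  have hLpos : 0 < L := Nat.ceil_pos.mpr (by positivity)
  have hLpos' : (0 : ℝ) < L := by exact_mod_cast hLpos
  set D' := ⌈b ^ 2⌉₊ with hD'def
  have hb2 : 1 ≤ b ^ 2 := one_le_pow₀ hb1
  have hD'1 : b ^ 2 ≤ D' := Nat.le_ceil _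
  have hD'2 : (D' : ℝ) ≤ 2 * b ^ 2 := by
    have := (Nat.ceil_lt_add_one (show (0 : ℝ) ≤ b ^ 2 by positivity)).le
    rw [← hD'def] at this
    linarith
  have hD'pos : 0 < D' := Nat.ceil_pos.mpr (by positivity)
  have hD'pos' : (0 : ℝ) < D' := by exact_mod_cast hD'pos
  have hmain := total N M K Y D L D' hK2 hDpos hLpos hD'pos
  rw [hbM] at hmain
  have hKpos : (0 : ℝ) < K := by
    have : (2 : ℝ) ≤ K := by exact_mod_cast hK2
    linarith
  have hlogK0 : 0 ≤ log (K : ℝ) := log_natCast_nonneg K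
  have hp10 : 1 ≤ b ^ 10 := one_le_pow₀ hb1
  have hKsq : (K : ℝ) ^ 2 ≤ 64 * (N : ℝ) ^ 2 * l ^ 2 := by
    calc (K : ℝ) ^ 2 ≤ (8 * N * l) ^ 2 := by gcongr
      _ = _ := by ring
  -- the unit of the error terms
  set U := b ^ 8 * (N : ℝ) ^ 2 * l with hU
  have hU0 : 0 ≤ U := by positivity
  have hU1 : b ^ 8 * (N : ℝ) ^ 2 ≤ U := by
    rw [hU]
    exact le_mul_of_one_le_right (by positivity) (by linarith)
  have hU2 : 1000 * (b ^ 5 * (N : ℝ) ^ 2 * l ^ 3) ≤ U := by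
    have h0 : 0 ≤ b ^ 5 * (N : ℝ) ^ 2 * l := by positivity
    calc 1000 * (b ^ 5 * (N : ℝ) ^ 2 * l ^ 3)
        = (b ^ 5 * (N : ℝ) ^ 2 * l) * (1000 * l ^ 2) := by ring
      _ ≤ (b ^ 5 * (N : ℝ) ^ 2 * l) * (b ^ 3) := by
          have : 1000 * l ^ 2 ≤ b ^ 3 := by
            have := sq_nonneg l
            linarith
          gcongr
      _ = U := by rw [hU]; ring
  have hU3 : b ^ 28 ≤ U := by
    have h1 : b ^ 10 ≤ N := by rw [← hbM]; exact hMN'
    have h2 : b ^ 20 ≤ (N : ℝ) ^ 2 := by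
      calc b ^ 20 = (b ^ 10) ^ 2 := by ring
        _ ≤ (N : ℝ) ^ 2 := by gcongr
    calc b ^ 28 = b ^ 8 * b ^ 20 := by ring
      _ ≤ b ^ 8 * (N : ℝ) ^ 2 := by gcongr
      _ ≤ U := hU1
  -- T0
  have T0 : b ^ 10 * (3 * K * (log K * (1 + log K))) ≤ U := by
    calc b ^ 10 * (3 * K * (log K * (1 + log K)))
        ≤ b ^ 10 * (3 * (8 * N * l) * ((2 * l) * (3 * l))) := by
          gcongr
          linarith
      _ = b ^ 8 * N * (b ^ 2 * (144 * l ^ 3)) := by ring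
      _ ≤ b ^ 8 * N * (c ^ 2 * c ^ 3) := by
          have : 144 * l ^ 3 ≤ c ^ 3 := by
            have : 0 ≤ l ^ 3 := by positivity
            linarith
          gcongr
      _ ≤ b ^ 8 * N * N := by
          have : c ^ 2 * c ^ 3 ≤ N := by
            rw [hcN, ← pow_add]
            exact pow_le_pow_right₀ hc1 (by norm_num)
          gcongr
      _ = b ^ 8 * (N : ℝ) ^ 2 := by ring
      _ ≤ U := hU1
  -- theta
  have hth : Chebyshev.theta Y ≤ 1.4 * (η ^ 3 * ((N : ℝ) ^ 2 * b ^ 5 * s)) := by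
    have h1 := Chebyshev.theta_le_log4_mul_x (x := (Y : ℝ)) (Nat.cast_nonneg Y)
    have h2 : log 4 * (Y : ℝ) ≤ 1.4 * (η ^ 3 * ((N : ℝ) ^ 2 * b ^ 5 * s)) := by
      have : (0 : ℝ) ≤ Y := Nat.cast_nonneg Y
      calc log 4 * (Y : ℝ) ≤ 1.4 * (Y : ℝ) := by gcongr
        _ ≤ _ := by gcongr
    exact h1.trans h2
  have hth0 : 0 ≤ Chebyshev.theta Y := Chebyshev.theta_nonneg _
  set V := b ^ 10 * (N : ℝ) ^ 2 * l with hV
  have hV0 : 0 ≤ V := by positivity
  have T1a : (b ^ 10 / D + 1) * Chebyshev.theta Y ≤ 2.8 * (η ^ 2 * V) := by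
    have h1 : b ^ 10 / D ≤ b ^ 5 * s / η := by
      rw [div_le_div_iff₀ hDpos' hη]
      have h2 : b ^ 5 * s * t ≤ b ^ 5 * s * D := by gcongr
      have h3 : b ^ 5 * s * t = b ^ 10 * η := by
        rw [ht]
        field_simp
      linarith
    have h2 : b ^ 10 / D * Chebyshev.theta Y ≤ 1.4 * (η ^ 2 * V) := by
      calc b ^ 10 / D * Chebyshev.theta Y
          ≤ (b ^ 5 * s / η) * (1.4 * (η ^ 3 * ((N : ℝ) ^ 2 * b ^ 5 * s))) := by gcongr
        _ = 1.4 * (η ^ 2 * (b ^ 10 * (N : ℝ) ^ 2 * s ^ 2)) := by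
            field_simp
        _ = _ := by rw [hs2]
    have h3 : Chebyshev.theta Y ≤ 1.4 * (η ^ 2 * V) := by
      refine hth.trans ?_
      have e1 : η ^ 3 ≤ η ^ 2 := by
        calc η ^ 3 = η ^ 2 * η := by ring
          _ ≤ η ^ 2 * 1 := by gcongr
          _ = η ^ 2 := mul_one _
      have e2 : b ^ 5 ≤ b ^ 10 := pow_le_pow_right₀ hb1 (by norm_num)
      have e3 : (N : ℝ) ^ 2 * b ^ 5 * s ≤ V := by
        calc (N : ℝ) ^ 2 * b ^ 5 * s ≤ (N : ℝ) ^ 2 * b ^ 10 * l := by gcongr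
          _ = V := by rw [hV]; ring
      gcongr
    have h4 : (b ^ 10 / D + 1) * Chebyshev.theta Y
        = b ^ 10 / D * Chebyshev.theta Y + Chebyshev.theta Y := by ring
    rw [h4]
    linarith
  have T1b : D * (K : ℝ) ^ 2 * (log K + D * log 2) ≤ 89.6 * (η ^ 2 * V) + 2 * U := by
    have h1 : (D : ℝ) ^ 2 ≤ 2 * (t ^ 2 + 1) := by
      calc (D : ℝ) ^ 2 ≤ (t + 1) ^ 2 := by gcongr
        _ = 2 * (t ^ 2 + 1) - (t - 1) ^ 2 := by ring
        _ ≤ 2 * (t ^ 2 + 1) := sub_le_self _ (sq_nonneg _)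
    have h2 : t ^ 2 * l = η ^ 2 * b ^ 10 := by
      rw [ht, div_pow, hs2]
      field_simp
    have h3 : D * (K : ℝ) ^ 2 * (log K + D * log 2)
        = D * (K : ℝ) ^ 2 * log K + D ^ 2 * (K : ℝ) ^ 2 * log 2 := by ring
    rw [h3]
    have h4 : D * (K : ℝ) ^ 2 * log K ≤ U := by
      have e1 : (D : ℝ) ≤ 2 * b ^ 5 := by
        have : 1 ≤ b ^ 5 := one_le_pow₀ hb1
        linarith
      have e0 : 0 ≤ b ^ 5 * (N : ℝ) ^ 2 * l ^ 3 := by positivity
      calc D * (K : ℝ) ^ 2 * log K ≤ (2 * b ^ 5) * (64 * (N : ℝ) ^ 2 * l ^ 2) * (2 * l) := by gcongr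
        _ = 256 * (b ^ 5 * (N : ℝ) ^ 2 * l ^ 3) := by ring
        _ ≤ U := by linarith
    have h5 : D ^ 2 * (K : ℝ) ^ 2 * log 2 ≤ 89.6 * (η ^ 2 * V) + U := by
      calc D ^ 2 * (K : ℝ) ^ 2 * log 2
          ≤ (2 * (t ^ 2 + 1)) * (64 * (N : ℝ) ^ 2 * l ^ 2) * 0.7 := by gcongr
        _ = 89.6 * ((t ^ 2 * l) * (N : ℝ) ^ 2 * l) + 89.6 * ((N : ℝ) ^ 2 * l ^ 2) := by ring
        _ = 89.6 * (η ^ 2 * V) + 89.6 * ((N : ℝ) ^ 2 * l ^ 2) := by rw [h2, hV]; ring
        _ ≤ 89.6 * (η ^ 2 * V) + U := by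
            have e1 : 1 ≤ b ^ 5 := one_le_pow₀ hb1
            have e2 : l ^ 2 ≤ l ^ 3 := pow_le_pow_right₀ (by linarith) (by norm_num)
            have e3 : (N : ℝ) ^ 2 * l ^ 2 ≤ b ^ 5 * (N : ℝ) ^ 2 * l ^ 3 := by
              calc (N : ℝ) ^ 2 * l ^ 2 = 1 * (N : ℝ) ^ 2 * l ^ 2 := by ring
                _ ≤ b ^ 5 * (N : ℝ) ^ 2 * l ^ 3 := by gcongr
            have e4 : 0 ≤ b ^ 5 * (N : ℝ) ^ 2 * l ^ 3 := by positivity
            linarith
    linarith
  have T2 : (b ^ 10 / L + 1) * (((L : ℝ) / D' + 1) * (b ^ 10) ^ 2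
      + D' * K ^ 2 * (log K + D' * log 2)) ≤ 8 * U := by
    have h1 : b ^ 10 / L + 1 ≤ 2 * b := by
      have : b ^ 10 / L ≤ b := by
        rw [div_le_iff₀ hLpos']
        calc b ^ 10 = b * b ^ 9 := by ring
          _ ≤ b * L := by gcongr
      linarith
    have h2 : (L : ℝ) / D' + 1 ≤ 3 * b ^ 7 := by
      have h3 : (L : ℝ) / D' ≤ 2 * b ^ 7 := by
        rw [div_le_iff₀ hD'pos']
        calc (L : ℝ) ≤ 2 * b ^ 9 := hL2
          _ = 2 * b ^ 7 * b ^ 2 := by ring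
          _ ≤ 2 * b ^ 7 * D' := by gcongr
      have h4 : 1 ≤ b ^ 7 := one_le_pow₀ hb1
      linarith
    have h5 : D' * (K : ℝ) ^ 2 * (log K + D' * log 2) ≤ 512 * (b ^ 4 * (N : ℝ) ^ 2 * l ^ 3) := by
      have e1 : log K + D' * log 2 ≤ 4 * (b ^ 2 * l) := by
        have e2 : (D' : ℝ) * log 2 ≤ (2 * b ^ 2) * 0.7 := by gcongr
        have e3 : l ≤ b ^ 2 * l := le_mul_of_one_le_left hlpos.le hb2
        have e4 : b ^ 2 ≤ b ^ 2 * l := le_mul_of_one_le_right (by positivity) (by linarith)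
        linarith
      calc D' * (K : ℝ) ^ 2 * (log K + D' * log 2)
          ≤ (2 * b ^ 2) * (64 * (N : ℝ) ^ 2 * l ^ 2) * (4 * (b ^ 2 * l)) := by gcongr
        _ = _ := by ring
    have e0 : 0 ≤ b ^ 5 * (N : ℝ) ^ 2 * l ^ 3 := by positivity
    calc (b ^ 10 / L + 1) * (((L : ℝ) / D' + 1) * (b ^ 10) ^ 2
          + D' * K ^ 2 * (log K + D' * log 2))
        ≤ (2 * b) * ((3 * b ^ 7) * (b ^ 10) ^ 2 + 512 * (b ^ 4 * (N : ℝ) ^ 2 * l ^ 3)) := by gcongr
      _ = 6 * b ^ 28 + 1024 * (b ^ 5 * (N : ℝ) ^ 2 * l ^ 3) := by ring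
      _ ≤ 8 * U := by linarith
  have T3 : b ^ 10 * (L : ℝ) ^ 2 ≤ 4 * U := by
    calc b ^ 10 * (L : ℝ) ^ 2 ≤ b ^ 10 * (2 * b ^ 9) ^ 2 := by gcongr
      _ = 4 * b ^ 28 := by ring
      _ ≤ 4 * U := by linarith
  have hnn : 0 ≤ η ^ 2 * V := by positivity
  refine hmain.trans ?_
  linarith

open scoped Classical in
/-- Let `p_n` be the `n`-th prime. For all large `N`, all integers `M` with `(log N) ^ 10 ≤ M ≤ N` and
all real `η, λ > 0`, the number of pairs `(n, m)` with `N ≤ n < N + M`, `2 ^ n ≤ m ≤ 2 ^ n + p_n`,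
`m` odd, such that `m` has a squarefree divisor `d ≥ 2 ^ (λ N)` all of whose prime factors are at
most `η³ N² (M log N)^(1/2)`, is at most `(140 / λ) (η² + M^(-1/5)) M N log N`. -/
theorem result : ∀ᶠ N : ℕ in atTop, ∀ M : ℕ, (Real.log N) ^ 10 ≤ M → M ≤ N →
    ∀ η lam : ℝ, 0 < η → 0 < lam →
    ∑ n ∈ Ico N (N + M),
      (((Icc (2 ^ n) (2 ^ n + Nat.nth Nat.Prime (n - 1))).filter (fun m : ℕ =>
        Odd m ∧ ∃ d : ℕ, d ∣ m ∧ Squarefree d ∧ (2 : ℝ) ^ (lam * N) ≤ d ∧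
          ∀ p : ℕ, p.Prime → p ∣ d →
            (p : ℝ) ≤ η ^ 3 * (N ^ 2 * √(M * Real.log N)))).card : ℝ)
      ≤ 140 / lam * (η ^ 2 + (M : ℝ) ^ (-(1 / 5) : ℝ)) * (M * N * Real.log N) := by
  filter_upwards [eventually_large] with N hL M hM hMN η lam hη hlam
  set l := log (N : ℝ) with hl
  have h2000 := hL.l45
  have hl16 := hL.l16
  rw [← hl] at h2000 hl16
  have hN1 : 1 ≤ N := by
    rcases Nat.eq_zero_or_pos N with rfl | h
    · simp at hl
      linarith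
    · exact h
  have hNpos : (0 : ℝ) < N := by exact_mod_cast hN1
  have hN1' : (1 : ℝ) ≤ N := by exact_mod_cast hN1
  have hMN' : (M : ℝ) ≤ N := by exact_mod_cast hMN
  have hMpos : (0 : ℝ) < M := lt_of_lt_of_le (by positivity) hM
  have hlog2 : 0.69 ≤ log 2 := by
    have := log_two_gt_d9
    linarith
  have hlog2' : log 2 ≤ 0.7 := by
    have := log_two_lt_d9
    linarith
  have h16 : 16 * l ≤ N := by
    have : (N : ℝ) * log 2 ≤ N * 1 := by gcongr; linarith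
    linarith
  have hNbig : (32000 : ℝ) ≤ N := by linarith
  have hNl2 : 8 * (N : ℝ) * l ≤ (N : ℝ) ^ 2 := by
    have h0 : (N : ℝ) * (16 * l) ≤ N * N := by gcongr
    have h1 : 0 ≤ (N : ℝ) * l := by positivity
    have h2 : (N : ℝ) ^ 2 = N * N := sq _
    rw [h2]
    linarith
  -- the length `K`
  set K := ⌊8 * (N : ℝ) * l⌋₊ with hK
  have hKle : (K : ℝ) ≤ 8 * N * l := Nat.floor_le (by positivity)
  have hKge : 8 * (N : ℝ) * l < K + 1 := Nat.lt_floor_add_one _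
  have hKsq : (K : ℝ) ≤ (N : ℝ) ^ 2 := hKle.trans hNl2
  have hNl1 : 2000 ≤ (N : ℝ) * l := by
    calc (2000 : ℝ) = 1 * 2000 := by norm_num
      _ ≤ N * l := by gcongr
  have hKbig : (2 : ℝ) ≤ K := by linarith
  have hKpos : (0 : ℝ) < K := by linarith
  have hK2 : 2 ≤ K := by exact_mod_cast hKbig
  have hlogK : log (K : ℝ) ≤ 2 * l := log_le_of_le_sq hKpos hKsq
  have hpiK : 2 * N ≤ Nat.primeCounting K := by
    have h1 := Chebyshev.pi_ge K
    have h2 : log ((K : ℝ) + 1) ≤ 3 * l := by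
      have e1 : (K : ℝ) + 1 ≤ (N : ℝ) ^ 3 := by
        have e2 : (N : ℝ) ^ 3 = N * (N : ℝ) ^ 2 := by ring
        have e3 : 2 * (N : ℝ) ^ 2 ≤ N * (N : ℝ) ^ 2 := by
          gcongr
          linarith
        have e4 : 1 ≤ (N : ℝ) ^ 2 := one_le_pow₀ hN1'
        rw [e2]
        linarith
      have := log_le_log (by positivity) e1
      rw [log_pow] at this
      exact_mod_cast this
    have h3 : 4 * (N : ℝ) * l ≤ K * log 2 - log ((K : ℝ) + 1) := by
      have : (8 * (N : ℝ) * l - 1) * 0.69 ≤ K * log 2 := by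
        have a1 : 8 * (N : ℝ) * l - 1 ≤ K := by linarith
        calc (8 * (N : ℝ) * l - 1) * 0.69 ≤ K * 0.69 := by gcongr
          _ ≤ K * log 2 := by gcongr
      have h4 : 3 * l ≤ N * l := by
        gcongr
        linarith
      linarith
    have hlogKpos : 0 < log (K : ℝ) := log_pos (by linarith)
    have h4 : (2 * N : ℝ) ≤ (K * log 2 - log ((K : ℝ) + 1)) / log K := by
      rw [le_div_iff₀ hlogKpos]
      calc (2 * N : ℝ) * log K ≤ 2 * N * (2 * l) := by gcongr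
        _ = 4 * N * l := by ring
        _ ≤ _ := h3
    have h5 : (2 * N : ℝ) ≤ Nat.primeCounting K := h4.trans h1
    exact_mod_cast h5
  set T : ℝ := η ^ 3 * (N ^ 2 * √(M * l)) with hT
  have hT0 : 0 ≤ T := by positivity
  set Y := ⌊T⌋₊ with hY
  have hYT : (Y : ℝ) ≤ T := Nat.floor_le hT0
  set b := (M : ℝ) ^ (1 / 10 : ℝ) with hb
  have hb0 : 0 < b := by positivity
  have hbM : (M : ℝ) = b ^ 10 := by
    rw [hb, ← rpow_natCast, ← rpow_mul hMpos.le]
    norm_num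
  have hsq : √((M : ℝ) * l) = b ^ 5 * √l := by
    rw [sqrt_mul hMpos.le]
    congr 1
    rw [hbM, show b ^ 10 = (b ^ 5) ^ 2 by ring, sqrt_sq (by positivity)]
  have hYT' : (Y : ℝ) ≤ η ^ 3 * ((N : ℝ) ^ 2 * b ^ 5 * √l) := by
    refine hYT.trans (le_of_eq ?_)
    rw [hT, hsq]
    ring
  have hb8 : b ^ 8 = (M : ℝ) * (M : ℝ) ^ (-(1 / 5) : ℝ) := by
    have e : (M : ℝ) * (M : ℝ) ^ (-(1 / 5) : ℝ) = (M : ℝ) ^ (1 + (-(1 / 5)) : ℝ) := by
      rw [rpow_add hMpos, rpow_one]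
    rw [e, hb, ← rpow_natCast, ← rpow_mul hMpos.le]
    norm_num
  set μ := (M : ℝ) ^ (-(1 / 5) : ℝ) with hμ
  have hμ0 : 0 ≤ μ := by positivity
  -- the total
  have htot : ∑ n ∈ Ico N (N + M), ∑ k ∈ odds K, RS Y (2 ^ n + k)
      ≤ 94 * (η ^ 2 + μ) * (M * N ^ 2 * l) := by
    rcases le_total η 1 with hη1 | hη1
    · have h1 := sum_bound hL hM hMN hη hη1 hK2 hKle hlogK hb0 hbM hYT'
      rw [← hl, hb8, ← hbM] at h1
      refine h1.trans ?_
      have e2 : 0 ≤ μ * (M * (N : ℝ) ^ 2 * l) := by positivity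
      have e3 : 94 * (η ^ 2 + μ) * (M * (N : ℝ) ^ 2 * l)
        = 94 * (η ^ 2 * (M * (N : ℝ) ^ 2 * l)) + 94 * (μ * (M * (N : ℝ) ^ 2 * l)) := by ring
      have e4 : M * μ * (N : ℝ) ^ 2 * l = μ * (M * (N : ℝ) ^ 2 * l) := by ring
      rw [e3, e4]
      linarith
    · have h1 : ∀ n ∈ Ico N (N + M), ∀ k ∈ odds K, RS Y (2 ^ n + k) ≤ (2 * N + 1) * log 2 := by
        intro n hn k hk
        have hn' := mem_Ico.mp hn
        have hk' := mem_Icc.mp (mem_filter.mp hk).1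
        refine (RS_le_log (by positivity)).trans ?_
        have hK4 : K ≤ 2 ^ (2 * N) := by
          have h2 : K ≤ N ^ 2 := by exact_mod_cast hKsq
          have h3 : N ^ 2 ≤ 2 ^ (2 * N) := by
            have h := (Nat.lt_two_pow_self (n := N)).le
            calc N ^ 2 ≤ (2 ^ N) ^ 2 := Nat.pow_le_pow_left h 2
              _ = 2 ^ (2 * N) := by rw [← pow_mul]; ring_nf
          exact h2.trans h3
        have h2 : 2 ^ n + k ≤ 2 ^ (2 * N + 1) := by
          have e2 : 2 ^ n ≤ 2 ^ (2 * N) := Nat.pow_le_pow_right (by norm_num) (by omega)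
          rw [pow_succ]
          omega
        have h3 : ((2 ^ n + k : ℕ) : ℝ) ≤ (2 : ℝ) ^ (2 * N + 1) := by exact_mod_cast h2
        have h4 : (0 : ℝ) < ((2 ^ n + k : ℕ) : ℝ) := by positivity
        calc log ((2 ^ n + k : ℕ) : ℝ) ≤ log ((2 : ℝ) ^ (2 * N + 1)) := log_le_log h4 h3
          _ = _ := by rw [log_pow]; push_cast; ring
      have h2 : ∑ n ∈ Ico N (N + M), ∑ k ∈ odds K, RS Y (2 ^ n + k)
          ≤ M * (K * ((2 * N + 1) * log 2)) := by
        have h3 : ∀ n ∈ Ico N (N + M), ∑ k ∈ odds K, RS Y (2 ^ n + k)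
            ≤ K * ((2 * N + 1) * log 2) := by
          intro n hn
          have h4 := sum_le_card_nsmul (odds K) _ _ (h1 n hn)
          rw [nsmul_eq_mul] at h4
          refine h4.trans ?_
          have h5 : ((odds K).card : ℝ) ≤ K := by exact_mod_cast card_odds_le K
          gcongr
        have h4 := sum_le_card_nsmul (Ico N (N + M)) _ _ h3
        rwa [nsmul_eq_mul, Nat.card_Ico, Nat.add_sub_cancel_left] at h4
      refine h2.trans ?_
      calc (M : ℝ) * (K * ((2 * N + 1) * log 2))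
          ≤ M * ((8 * N * l) * ((3 * N) * 0.7)) := by
            gcongr
            linarith
        _ = 16.8 * (M * N ^ 2 * l) := by ring
        _ ≤ 94 * (η ^ 2 + μ) * (M * N ^ 2 * l) := by
            have e1 : 1 ≤ η ^ 2 := one_le_pow₀ hη1
            have e2 : 0 ≤ (M : ℝ) * (N : ℝ) ^ 2 * l := by positivity
            have e3 : 16.8 ≤ 94 * (η ^ 2 + μ) := by linarith
            gcongr
  set A : ℕ → Finset ℕ := fun n =>
    (Icc (2 ^ n) (2 ^ n + Nat.nth Nat.Prime (n - 1))).filter (fun m : ℕ =>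
      Odd m ∧ ∃ d : ℕ, d ∣ m ∧ Squarefree d ∧ (2 : ℝ) ^ (lam * N) ≤ d ∧
        ∀ p : ℕ, p.Prime → p ∣ d → (p : ℝ) ≤ T) with hA
  have hSnn : ∀ m : ℕ, 0 ≤ RS Y m := fun m => sum_nonneg fun p _ => log_natCast_nonneg p
  have hstep : ∀ n ∈ Ico N (N + M), ((A n).card : ℝ) * (lam * N * log 2)
      ≤ ∑ k ∈ odds K, RS Y (2 ^ n + k) := by
    intro n hn
    have hn' := mem_Ico.mp hn
    have hval : ∀ m ∈ A n, lam * N * log 2 ≤ RS Y m := by
      intro m hm
      obtain ⟨hm1, hm2, d, hd1, hsq, hd2, hd3⟩ := mem_filter.mp hm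
      have hm0 : m ≠ 0 := by
        rintro rfl
        simp at hm2
      have e1 : log d ≤ RS Y m :=
        log_le_RS hm0 hd1 hsq fun p hp hpd => Nat.le_floor (hd3 p hp hpd)
      have e2 : lam * N * log 2 ≤ log d := by
        have := log_le_log (by positivity) hd2
        rwa [log_rpow (by norm_num)] at this
      linarith
    have himg : (A n).card ≤ ((odds K).filter (fun k => 2 ^ n + k ∈ A n)).card := by
      refine card_le_card_of_injOn (fun m => m - 2 ^ n) ?_ ?_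
      · intro m hm
        have hm' := hm
        obtain ⟨hm1, hm2, -⟩ := mem_filter.mp (mem_coe.mp hm)
        have hm3 := mem_Icc.mp hm1
        have hodd : Odd (m - 2 ^ n) := by
          have heven : Even (2 ^ n) := Nat.even_pow.mpr ⟨even_two, by omega⟩
          exact Nat.Odd.sub_even hm3.1 hm2 heven
        have hpos : m - 2 ^ n ≠ 0 := by
          intro h
          rw [h] at hodd
          simp at hodd
        have hKn := nth_le_K (N := N) (by omega : 1 ≤ n) (by omega) hpiK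
        have hmem : m - 2 ^ n ∈ Icc 1 K := mem_Icc.mpr ⟨by omega, by omega⟩
        have e : 2 ^ n + (m - 2 ^ n) = m := by omega
        refine mem_coe.mpr (mem_filter.mpr ⟨mem_filter.mpr ⟨hmem, hodd⟩, ?_⟩)
        show 2 ^ n + (m - 2 ^ n) ∈ A n
        rw [e]
        exact mem_coe.mp hm'
      · intro m hm m' hm' h
        have h1 := (mem_Icc.mp (mem_filter.mp (mem_coe.mp hm)).1).1
        have h2 := (mem_Icc.mp (mem_filter.mp (mem_coe.mp hm')).1).1
        simp only at h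
        omega
    calc ((A n).card : ℝ) * (lam * N * log 2)
        ≤ (((odds K).filter (fun k => 2 ^ n + k ∈ A n)).card : ℝ) * (lam * N * log 2) := by
          gcongr
      _ ≤ ∑ k ∈ (odds K).filter (fun k => 2 ^ n + k ∈ A n), RS Y (2 ^ n + k) := by
          have h2 := card_nsmul_le_sum ((odds K).filter (fun k => 2 ^ n + k ∈ A n))
            (fun k => RS Y (2 ^ n + k)) (lam * N * log 2) (fun k hk => hval _ (mem_filter.mp hk).2)
          rwa [nsmul_eq_mul] at h2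
      _ ≤ ∑ k ∈ odds K, RS Y (2 ^ n + k) :=
          sum_le_sum_of_subset_of_nonneg (filter_subset _ _) fun k _ _ => hSnn _
  have hsum := sum_le_sum hstep
  rw [← sum_mul] at hsum
  have h3 := hsum.trans htot
  have h4 : 0 < lam * N * log 2 := by positivity
  have h5 : 140 / lam * (η ^ 2 + μ) * (M * N * l) * (lam * N * log 2)
      = 140 * log 2 * ((η ^ 2 + μ) * (M * N ^ 2 * l)) := by
    field_simp
  have h6 : 94 * (η ^ 2 + μ) * (M * N ^ 2 * l)
      ≤ 140 * log 2 * ((η ^ 2 + μ) * (M * N ^ 2 * l)) := by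
    have h0 : 0 ≤ (η ^ 2 + μ) * ((M : ℝ) * N ^ 2 * l) := by positivity
    have h1 : (94 : ℝ) ≤ 140 * log 2 := by linarith
    calc 94 * (η ^ 2 + μ) * (M * N ^ 2 * l) = 94 * ((η ^ 2 + μ) * (M * N ^ 2 * l)) := by ring
      _ ≤ _ := by gcongr
  have h7 : (∑ n ∈ Ico N (N + M), ((A n).card : ℝ)) * (lam * N * log 2)
      ≤ 140 / lam * (η ^ 2 + μ) * (M * N * l) * (lam * N * log 2) := by
    rw [h5]
    linarith
  exact le_of_mul_le_mul_right h7 h4

end Pool.Agent.Results.MP_78b39f_nt.SquarefreeSmoothPart
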